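import Pool.Agent.Helper61.SIG9.Closed

/-!
# The closed sphere-of-influence graph has at most `9 n - 36` edges: assembly
-/

set_option autoImplicit false

open Finset Pool.Agent.Helper67.SIG

namespace Pool.Agent.Helper61.SIG9

theorem sqrt3_pos : (0 : ℝ) < Real.sqrt 3 := Real.sqrt_pos.mpr (by norm_num)

/-- The data of a hexagonal centre in the form needed by `extra_bound`. -/
theorem hexData {P : Finset Pl} (hP : 2 ≤ P.card) {m v : Pl} (h : IsHex P m v)
    (mm : P) (hm : (mm : Pl) = m) (f : Fin 6 → P) (hf : ∀ s, (f s : Pl) = hp m v s) :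
    HexData (fa P) (fb P) (fc P) mm f where
  inj := by
    intro s t hst
    apply hp_injective (m := m) h.2.1
    rw [← hf, ← hf, hst]
  notin := by
    intro s hs
    apply hp_ne (m := m) h.2.1 s
    rw [← hf, hs, hm]
  orr_pos := by
    refine ⟨m 0, m 1, 1, fun i j k hij hjk => ?_⟩
    rw [orr_hex h i j k _ _ _ (hf i) (hf j) (hf k)]
    have h1 : (0 : ℝ) < Kz i j k := by exact_mod_cast Kz_pos i j k hij hjk
    have h2 := h.2.1
    have h3 := sqrt3_pos
    positivity
  centre := by
    intro i j k hij hjk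
    rw [chi_hex h i j k _ _ _ _ (hf i) (hf j) (hf k)]
    have h1 : (0 : ℝ) < Kz i j k := by exact_mod_cast Kz_pos i j k hij hjk
    have h2 := h.2.1
    have h3 := sqrt3_pos
    have h4 : 0 < rad P (mm : Pl) := rad_pos' hP _
    have h5 : sd (mm : Pl) m = 0 := by rw [hm]; unfold sd; ring
    rw [h5, zero_sub]
    have h6 : 0 < Real.sqrt 3 * (Kz i j k : ℝ) * (v 0 ^ 2 + v 1 ^ 2) := by positivity
    have h7 : 0 < rad P (mm : Pl) ^ 2 := by positivity
    have := mul_pos h6 h7
    linarith
  outside := by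
    intro x hx hxs i j k hij hjk
    rw [chi_hex h i j k _ _ _ _ (hf i) (hf j) (hf k)]
    have h1 : (0 : ℝ) < Kz i j k := by exact_mod_cast Kz_pos i j k hij hjk
    have h2 := h.2.1
    have h3 := sqrt3_pos
    have h4 := hex_outside h x.2 (fun e => hx (Subtype.ext (by rw [e, hm])))
      (fun s e => hxs s (Subtype.ext (by rw [hf, e])))
    have h6 : 0 < Real.sqrt 3 * (Kz i j k : ℝ) * (v 0 ^ 2 + v 1 ^ 2) := by positivity
    exact mul_pos h6 (by linarith)

/-- The rotated vectors. -/
theorem h_rel (v : Pl) (s : Fin 6) :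
    hx v (s + 2) = hx v (s + 1) - hx v s ∧ hy v (s + 2) = hy v (s + 1) - hy v s ∧
    hx v (s + 3) = - hx v s ∧ hy v (s + 3) = - hy v s ∧
    hx v (s + 4) = - hx v (s + 1) ∧ hy v (s + 4) = - hy v (s + 1) ∧
    hx v (s + 5) = hx v s - hx v (s + 1) ∧ hy v (s + 5) = hy v s - hy v (s + 1) := by
  have hC : ∀ s : Fin 6, Cz (s + 2) = Cz (s + 1) - Cz s ∧ Sz (s + 2) = Sz (s + 1) - Sz s ∧
      Cz (s + 3) = - Cz s ∧ Sz (s + 3) = - Sz s ∧
      Cz (s + 4) = - Cz (s + 1) ∧ Sz (s + 4) = - Sz (s + 1) ∧
      Cz (s + 5) = Cz s - Cz (s + 1) ∧ Sz (s + 5) = Sz s - Sz (s + 1) := by decide +kernel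
  obtain ⟨a1, a2, a3, a4, a5, a6, a7, a8⟩ := hC s
  unfold hx hy
  rw [a1, a2, a3, a4, a5, a6, a7, a8]
  push_cast
  refine ⟨?_, ?_, ?_, ?_, ?_, ?_, ?_, ?_⟩ <;> ring

theorem fin_ne : ∀ s : Fin 6, s + 1 ≠ s ∧ s + 2 ≠ s ∧ s + 3 ≠ s ∧ s + 1 ≠ s + 4 ∧ s + 2 ≠ s + 4 ∧
    s + 3 ≠ s + 4 ∧ s + 1 ≠ s + 2 ∧ s + 1 ≠ s + 3 ∧ s + 2 ≠ s + 3 := by decide +kernel

open Classical in
/-- At every witness of a next-but-one pair of a hexagon the vertex between is strictly below. -/
theorem hex_sign {P : Finset Pl} {m v : Pl} (h : IsHex P m v) (s : Fin 6) {a b : ℝ}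
    (h0 : EE P (hp m v s) (hp m v (s + 4)) a b = 0)
    (h2 : (P.filter fun x => x ≠ hp m v s ∧ x ≠ hp m v (s + 4) ∧
      EE P (hp m v s) x a b ≤ 0).card ≤ 2) :
    EE P (hp m v s) (hp m v (s + 5)) a b < 0 := by
  have hE : ∀ t, EE P (hp m v s) (hp m v t) a b =
      -2 * ((hx v t - hx v s) * (a - m 0) + (hy v t - hy v s) * (b - m 1)) := by
    intro t
    rw [EE_eq, (h.2.2 t).2, (h.2.2 s).2, hp_zero, hp_one, hp_zero, hp_one]
    linear_combination hxy_sq v t - hxy_sq v s
  obtain ⟨r1, r2, r3, r4, r5, r6, r7, r8⟩ := h_rel v s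
  by_contra hcon
  push Not at hcon
  rw [hE, r7, r8] at hcon
  rw [hE, r5, r6] at h0
  set A := hx v s * (a - m 0) + hy v s * (b - m 1) with hA
  set B := hx v (s + 1) * (a - m 0) + hy v (s + 1) * (b - m 1) with hB
  have hAB : A + B = 0 := by
    rw [hA, hB]; linarith
  have hB0 : 0 ≤ B := by
    rw [hB]; linarith
  have g1 : EE P (hp m v s) (hp m v (s + 1)) a b ≤ 0 := by
    rw [hE]
    have : -2 * ((hx v (s + 1) - hx v s) * (a - m 0) + (hy v (s + 1) - hy v s) * (b - m 1)) =
      -2 * (B - A) := by rw [hA, hB]; ring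
    rw [this]; linarith
  have g2 : EE P (hp m v s) (hp m v (s + 2)) a b ≤ 0 := by
    rw [hE, r1, r2]
    have : -2 * ((hx v (s + 1) - hx v s - hx v s) * (a - m 0) +
      (hy v (s + 1) - hy v s - hy v s) * (b - m 1)) =
      -2 * (B - A - A) := by rw [hA, hB]; ring
    rw [this]; linarith
  have g3 : EE P (hp m v s) (hp m v (s + 3)) a b ≤ 0 := by
    rw [hE, r3, r4]
    have : -2 * ((-hx v s - hx v s) * (a - m 0) +
      (-hy v s - hy v s) * (b - m 1)) =
      -2 * (- A - A) := by rw [hA]; ring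
    rw [this]; linarith
  obtain ⟨n1, n2, n3, n4, n5, n6, n7, n8, n9⟩ := fin_ne s
  have hinj := hp_injective (m := m) h.2.1
  have hsub : ({hp m v (s + 1), hp m v (s + 2), hp m v (s + 3)} : Finset Pl) ⊆
      (P.filter fun x => x ≠ hp m v s ∧ x ≠ hp m v (s + 4) ∧ EE P (hp m v s) x a b ≤ 0) := by
    intro x hx
    simp only [Finset.mem_insert, Finset.mem_singleton] at hx
    rw [Finset.mem_filter]
    rcases hx with rfl | rfl | rfl
    · exact ⟨(h.2.2 _).1, fun e => n1 (hinj e), fun e => n4 (hinj e), g1⟩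
    · exact ⟨(h.2.2 _).1, fun e => n2 (hinj e), fun e => n5 (hinj e), g2⟩
    · exact ⟨(h.2.2 _).1, fun e => n3 (hinj e), fun e => n6 (hinj e), g3⟩
  have h3 := Finset.card_le_card hsub
  rw [Finset.card_eq_three.mpr ⟨_, _, _, fun e => n7 (hinj e), fun e => n8 (hinj e),
    fun e => n9 (hinj e), rfl⟩] at h3
  omega

open Classical in
/-- A witness or a hexagon for every edge of the closed graph. -/
theorem closed_witness (P : Finset Pl) {p q : Pl} (h : (csig P).Adj p q) :
    (∃ u v : ℝ, EE P p q u v = 0 ∧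
      (P.filter fun x => x ≠ p ∧ x ≠ q ∧ EE P p x u v ≤ 0).card ≤ 2) ∨
    (∃ m v : Pl, IsHex P m v ∧ p = hp m v 0 ∧ q = hp m v 3) := by
  obtain ⟨hp1, hq1, hne, hd⟩ := h
  rcases lt_or_eq_of_le hd with hlt | heq
  · left
    obtain ⟨u, v, h1, h2⟩ := geo_witness P p q ⟨hp1, hq1, hne, hlt⟩
    exact ⟨u, v, h1, h2⟩
  · exact tangent_witness P hp1 hq1 hne heq

open Classical in
/-- The chosen vector of a hexagonal centre. -/
noncomputable def vec (P : Finset Pl) (m : Pl) : Pl :=
  if h : ∃ v, IsHex P m v then h.choose else m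

theorem vec_spec {P : Finset Pl} {m : Pl} (h : ∃ v, IsHex P m v) : IsHex P m (vec P m) := by
  unfold vec
  rw [dif_pos h]
  exact h.choose_spec

open Classical in
/-- The vertices as elements of `P`. -/
noncomputable def ver (P : Finset Pl) (m : P) (k : Fin 6) : P :=
  if h : ∃ v, IsHex P (m : Pl) v then ⟨hp m (vec P m) k, ((vec_spec h).2.2 k).1⟩ else m

theorem ver_spec {P : Finset Pl} {m : P} (h : ∃ v, IsHex P (m : Pl) v) (k : Fin 6) :
    (ver P m k : Pl) = hp m (vec P m) k := by
  unfold ver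
  rw [dif_pos h]

open Classical in
/-- The closed sphere-of-influence graph has at most `9 n - 36` edges (`n ≥ 7`). -/
theorem closed_bound (P : Finset Pl) (h7 : 7 ≤ P.card) :
    (csig P).edgeSet.ncard + 36 ≤ 9 * P.card := by
  have hG : ∀ p q, (csig P).Adj p q → p ∈ P ∧ q ∈ P := fun p q h => ⟨h.1, h.2.1⟩
  have h1 := two_mul_edges P (csig P) hG
  have hcard : Fintype.card P = P.card := Fintype.card_coe P
  set A := (univ : Finset (P × P)).filter fun t => (csig P).Adj t.1 t.2 with hA
  set H : Finset P := univ.filter fun m => ∃ v, IsHex P (m : Pl) v with hH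
  have hHmem : ∀ m ∈ H, ∃ v, IsHex P (m : Pl) v := fun m hm => (Finset.mem_filter.mp hm).2
  set Bad := (H ×ˢ (univ : Finset (Fin 6))).image
    (fun y => (ver P y.1 y.2, ver P y.1 (y.2 + 3))) with hBad
  have hBadcard : Bad.card ≤ 6 * H.card := by
    refine le_trans Finset.card_image_le ?_
    rw [Finset.card_product, Finset.card_univ, Fintype.card_fin, mul_comm]
  set G := A \ Bad with hGdef
  have hmain := extra_bound (fa P) (fb P) (fc P)
    (by
      intro i
      refine ⟨(i : Pl) 0, (i : Pl) 1, 1, fun q hq => ?_⟩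
      exact geo_hidden P (by omega) i i.2 q q.2 (fun h => hq (Subtype.ext h)))
    (by rw [hcard]; exact h7) H (ver P)
    (by
      intro m hm
      exact hexData (by omega) (vec_spec (hHmem m hm)) m rfl (ver P m)
        (fun s => ver_spec (hHmem m hm) s))
    (by
      intro m hm m' hm' hne i j k i' j' k' hij hjk hik e1 e2 e3
      apply hne
      apply Subtype.ext
      have g := hHmem m hm
      have g' := hHmem m' hm'
      refine hex_disj (vec_spec g) (vec_spec g') hij hjk hik (i' := i') (j' := j') (k' := k')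
        ?_ ?_ ?_
      · rw [← ver_spec g, ← ver_spec g', e1]
      · rw [← ver_spec g, ← ver_spec g', e2]
      · rw [← ver_spec g, ← ver_spec g', e3])
    G
    (by
      intro t ht
      have := (Finset.mem_filter.mp (Finset.mem_sdiff.mp ht).1).2
      exact fun h => (csig P).loopless.irrefl _ (h ▸ this))
    (by
      intro t ht m hm s e1 e2
      apply (Finset.mem_sdiff.mp ht).2
      rw [hBad, Finset.mem_image]
      exact ⟨(m, s), Finset.mem_product.mpr ⟨hm, Finset.mem_univ _⟩, Prod.ext e1.symm e2.symm⟩)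
    (by
      intro t ht
      obtain ⟨htA, htB⟩ := Finset.mem_sdiff.mp ht
      have hadj := (Finset.mem_filter.mp htA).2
      rcases closed_witness P hadj with ⟨u, v, w1, w2⟩ | ⟨m, v, hm, e1, e2⟩
      · refine ⟨u, v, 1, w1, ?_, ?_⟩
        · refine le_trans ?_ w2
          refine Finset.card_le_card_of_injOn (fun x => (x : Pl)) ?_ ?_
          · intro x hx
            simp only [Finset.coe_filter, Finset.mem_univ, true_and, Set.mem_ofPred_eq] at hx ⊢
            exact ⟨x.2, fun h => hx.1 (Subtype.ext h), fun h => hx.2.1 (Subtype.ext h), hx.2.2⟩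
          · intro x _ y _ h
            exact Subtype.ext h
        · intro m hm s e1 e2
          have g := hHmem m hm
          have gs := vec_spec g
          have f1 : (t.1 : Pl) = hp m (vec P m) s := by rw [e1, ver_spec g]
          have f2 : (t.2 : Pl) = hp m (vec P m) (s + 4) := by rw [e2, ver_spec g]
          rw [f1, f2] at w1 w2
          have := hex_sign gs s w1 w2
          rw [← f1, ← ver_spec g] at this
          exact this
      · exfalso
        apply htB
        have hmP := hm.1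
        set mm : P := ⟨m, hmP⟩ with hmm
        have hmH : mm ∈ H := Finset.mem_filter.mpr ⟨Finset.mem_univ _, v, hm⟩
        have g := hHmem mm hmH
        have gs := vec_spec g
        obtain ⟨s, hs⟩ := hex_exists gs (x := (t.1 : Pl)) t.1.2
          (by rw [e1]; exact hp_ne hm.2.1 0)
          (by
            rw [e1]
            show sd (hp m v 0) m ≤ _
            rw [sd_hp, (hm.2.2 0).2])
        rw [hBad, Finset.mem_image]
        refine ⟨(mm, s), Finset.mem_product.mpr ⟨hmH, Finset.mem_univ _⟩, Prod.ext ?_ ?_⟩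
        · apply Subtype.ext
          show (ver P mm s : Pl) = t.1
          rw [ver_spec g, hs]
        · apply Subtype.ext
          show (ver P mm (s + 3) : Pl) = t.2
          rw [ver_spec g, e2]
          have o1 := hp_opp mm (vec P mm) s
          have o2 := hp_opp m v 0
          rw [hs, e1] at o1
          have o3 : (0 : Fin 6) + 3 = 3 := rfl
          rw [o3] at o2
          exact ext_pl (by rw [o1.1, o2.1]) (by rw [o1.2, o2.2]))
  have hAG : A.card ≤ G.card + Bad.card := by
    refine le_trans (Finset.card_le_card (?_ : A ⊆ G ∪ Bad)) (Finset.card_union_le _ _)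
    intro t ht
    rw [Finset.mem_union, hGdef, Finset.mem_sdiff]
    by_cases hb : t ∈ Bad
    · exact Or.inr hb
    · exact Or.inl ⟨ht, hb⟩
  rw [hcard] at hmain
  omega

/-- The closed sphere-of-influence graph has at most `9 n` edges. -/
theorem closed_bound' (P : Finset Pl) : (csig P).edgeSet.ncard ≤ 9 * P.card := by
  rcases Nat.lt_or_ge P.card 7 with h | h
  · have hG : ∀ p q, (csig P).Adj p q → p ∈ P ∧ q ∈ P := fun p q h => ⟨h.1, h.2.1⟩
    have h1 := edges_le_choose P (csig P) hG
    refine le_trans h1 ?_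
    interval_cases P.card <;> decide
  · have := closed_bound P h
    omega

end Pool.Agent.Helper61.SIG9
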