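import Pool.Agent.Helper61.SIG9.HexCheck

/-!
# The six triples of a perturbed convex hexagon
-/

set_option autoImplicit false

open Finset Pool.Agent.Helper67.SIG

namespace Pool.Agent.Helper61.SIG9

variable {ι : Type*}

/-- The determinant of `g_j - g_i`, `g_k - g_i` and a fixed vector. -/
def orr (a b c : ι → ℝ) (i j k : ι) (u v w : ℝ) : ℝ :=
  ((b j - b i) * (c k - c i) - (c j - c i) * (b k - b i)) * u +
  ((c j - c i) * (a k - a i) - (a j - a i) * (c k - c i)) * v +
  ((a j - a i) * (b k - b i) - (b j - b i) * (a k - a i)) * w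

theorem cnd_of {x y z α β γ : ℝ} (h : α * x - β * y + γ * z = 0) (hα : 0 < α) (hβ : 0 < β)
    (hγ : 0 < γ) (hx : x ≠ 0) (hz : z ≠ 0) :
    cnd (decide (0 < x)) (decide (0 < y)) (decide (0 < z)) = true := by
  rcases lt_or_gt_of_ne hx with hx' | hx' <;> rcases lt_or_gt_of_ne hz with hz' | hz'
  · by_cases hy : 0 < y
    · exfalso
      have h1 := mul_neg_of_pos_of_neg hα hx'
      have h2 := mul_neg_of_pos_of_neg hγ hz'
      have h3 := mul_pos hβ hy
      linarith
    · simp [cnd, not_lt.mpr hx'.le, hy]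
  · by_cases hy : 0 < y
    · simp [cnd, hz', hy]
    · simp [cnd, not_lt.mpr hx'.le, hy]
  · by_cases hy : 0 < y
    · simp [cnd, hx', hy]
    · simp [cnd, not_lt.mpr hz'.le, hy]
  · by_cases hy : 0 < y
    · simp [cnd, hx', hy]
    · exfalso
      have h1 := mul_pos hα hx'
      have h2 := mul_pos hγ hz'
      have h3 := mul_nonneg hβ.le (sub_nonneg.mpr (not_lt.mp hy))
      have h4 : β * y ≤ 0 := by linarith
      linarith

theorem pat_012 (a b c : ι → ℝ) (e0 e1 e2 e3 e4 : ι) (u v w : ℝ) :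
    orr a b c e0 e3 e4 u v w * chi a b c e1 e2 e3 e4 -
      orr a b c e1 e3 e4 u v w * chi a b c e0 e2 e3 e4 +
      orr a b c e2 e3 e4 u v w * chi a b c e0 e1 e3 e4 = 0 := by
  unfold orr chi; ring

theorem pat_013 (a b c : ι → ℝ) (e0 e1 e2 e3 e4 : ι) (u v w : ℝ) :
    orr a b c e0 e2 e4 u v w * chi a b c e1 e2 e3 e4 -
      orr a b c e1 e2 e4 u v w * chi a b c e0 e2 e3 e4 +
      orr a b c e2 e3 e4 u v w * chi a b c e0 e1 e2 e4 = 0 := by
  unfold orr chi; ring

theorem pat_014 (a b c : ι → ℝ) (e0 e1 e2 e3 e4 : ι) (u v w : ℝ) :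
    orr a b c e0 e2 e3 u v w * chi a b c e1 e2 e3 e4 -
      orr a b c e1 e2 e3 u v w * chi a b c e0 e2 e3 e4 +
      orr a b c e2 e3 e4 u v w * chi a b c e0 e1 e2 e3 = 0 := by
  unfold orr chi; ring

theorem pat_023 (a b c : ι → ℝ) (e0 e1 e2 e3 e4 : ι) (u v w : ℝ) :
    orr a b c e0 e1 e4 u v w * chi a b c e1 e2 e3 e4 -
      orr a b c e1 e2 e4 u v w * chi a b c e0 e1 e3 e4 +
      orr a b c e1 e3 e4 u v w * chi a b c e0 e1 e2 e4 = 0 := by
  unfold orr chi; ring

theorem pat_024 (a b c : ι → ℝ) (e0 e1 e2 e3 e4 : ι) (u v w : ℝ) :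
    orr a b c e0 e1 e3 u v w * chi a b c e1 e2 e3 e4 -
      orr a b c e1 e2 e3 u v w * chi a b c e0 e1 e3 e4 +
      orr a b c e1 e3 e4 u v w * chi a b c e0 e1 e2 e3 = 0 := by
  unfold orr chi; ring

theorem pat_034 (a b c : ι → ℝ) (e0 e1 e2 e3 e4 : ι) (u v w : ℝ) :
    orr a b c e0 e1 e2 u v w * chi a b c e1 e2 e3 e4 -
      orr a b c e1 e2 e3 u v w * chi a b c e0 e1 e2 e4 +
      orr a b c e1 e2 e4 u v w * chi a b c e0 e1 e2 e3 = 0 := by
  unfold orr chi; ring

theorem pat_123 (a b c : ι → ℝ) (e0 e1 e2 e3 e4 : ι) (u v w : ℝ) :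
    orr a b c e0 e1 e4 u v w * chi a b c e0 e2 e3 e4 -
      orr a b c e0 e2 e4 u v w * chi a b c e0 e1 e3 e4 +
      orr a b c e0 e3 e4 u v w * chi a b c e0 e1 e2 e4 = 0 := by
  unfold orr chi; ring

theorem pat_124 (a b c : ι → ℝ) (e0 e1 e2 e3 e4 : ι) (u v w : ℝ) :
    orr a b c e0 e1 e3 u v w * chi a b c e0 e2 e3 e4 -
      orr a b c e0 e2 e3 u v w * chi a b c e0 e1 e3 e4 +
      orr a b c e0 e3 e4 u v w * chi a b c e0 e1 e2 e3 = 0 := by
  unfold orr chi; ring

theorem pat_134 (a b c : ι → ℝ) (e0 e1 e2 e3 e4 : ι) (u v w : ℝ) :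
    orr a b c e0 e1 e2 u v w * chi a b c e0 e2 e3 e4 -
      orr a b c e0 e2 e3 u v w * chi a b c e0 e1 e2 e4 +
      orr a b c e0 e2 e4 u v w * chi a b c e0 e1 e2 e3 = 0 := by
  unfold orr chi; ring

theorem pat_234 (a b c : ι → ℝ) (e0 e1 e2 e3 e4 : ι) (u v w : ℝ) :
    orr a b c e0 e1 e2 u v w * chi a b c e0 e1 e3 e4 -
      orr a b c e0 e1 e3 u v w * chi a b c e0 e1 e2 e4 +
      orr a b c e0 e1 e4 u v w * chi a b c e0 e1 e2 e3 = 0 := by
  unfold orr chi; ring

theorem chi_34 (a b c : ι → ℝ) (i j k x : ι) : chi a b c i j x k = - chi a b c i j k x := by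
  unfold chi; ring

theorem chi_23 (a b c : ι → ℝ) (i j k x : ι) : chi a b c i k j x = - chi a b c i j k x := by
  unfold chi; ring

theorem chi_12 (a b c : ι → ℝ) (i j k x : ι) : chi a b c j i k x = - chi a b c i j k x := by
  unfold chi; ring

theorem bel_iff (a b c : Fin 6 → ℝ)
    (hD : ∀ i j k l, i < j → j < k → k < l → chi a b c i j k l ≠ 0)
    {i j k : Fin 6} (hij : i < j) (hjk : j < k) (d : Fin 6) :
    chi a b c i j k d < 0 ↔
      bel (fun i j k l => decide (0 < chi a b c i j k l)) i j k d = true := by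
  unfold bel
  by_cases h1 : d < i
  · have h0 := hD d i j k h1 hij hjk
    have e : chi a b c i j k d = - chi a b c d i j k := by
      rw [chi_34, chi_23, chi_12]; ring
    rw [if_pos h1, e, decide_eq_true_iff]
    exact neg_lt_zero
  rw [if_neg h1]
  by_cases h2 : d = i
  · rw [if_pos h2, h2, chi_self_left]
    simp
  rw [if_neg h2]
  have h2' : i < d := lt_of_le_of_ne (not_lt.mp h1) (Ne.symm h2)
  by_cases h3 : d < j
  · have h0 := hD i d j k h2' h3 hjk
    have e : chi a b c i j k d = chi a b c i d j k := by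
      rw [chi_34, chi_23]; ring
    rw [if_pos h3, e, Bool.not_eq_true', decide_eq_false_iff_not, not_lt]
    exact ⟨fun h => h.le, fun h => lt_of_le_of_ne h h0⟩
  rw [if_neg h3]
  by_cases h4 : d = j
  · rw [if_pos h4, h4, chi_self_mid]
    simp
  rw [if_neg h4]
  have h4' : j < d := lt_of_le_of_ne (not_lt.mp h3) (Ne.symm h4)
  by_cases h5 : d < k
  · have h0 := hD i j d k hij h4' h5
    have e : chi a b c i j k d = - chi a b c i j d k := by
      rw [chi_34]
    rw [if_pos h5, e, decide_eq_true_iff]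
    exact neg_lt_zero
  rw [if_neg h5]
  by_cases h6 : d = k
  · rw [if_pos h6, h6, chi_self_right]
    simp
  rw [if_neg h6]
  have h6' : k < d := lt_of_le_of_ne (not_lt.mp h5) (Ne.symm h6)
  have h0 := hD i j k d hij hjk h6'
  rw [Bool.not_eq_true', decide_eq_false_iff_not, not_lt]
  exact ⟨fun h => h.le, fun h => lt_of_le_of_ne h h0⟩

theorem tab_eq (B : Fin 6 → Fin 6 → Fin 6 → Fin 6 → Bool) {i j k l : Fin 6}
    (hij : i < j) (hjk : j < k) (hkl : k < l) :
    tab (B 0 1 2 3) (B 0 1 2 4) (B 0 1 2 5) (B 0 1 3 4) (B 0 1 3 5) (B 0 1 4 5) (B 0 2 3 4) (B 0 2 3 5) (B 0 2 4 5) (B 0 3 4 5) (B 1 2 3 4) (B 1 2 3 5) (B 1 2 4 5) (B 1 3 4 5) (B 2 3 4 5)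
      i j k l = B i j k l := by
  have key : ∀ i j k l : Fin 6, i < j → j < k → k < l →
      (i, j, k, l) ∈ ([(0, 1, 2, 3), (0, 1, 2, 4), (0, 1, 2, 5), (0, 1, 3, 4), (0, 1, 3, 5), (0, 1, 4, 5), (0, 2, 3, 4), (0, 2, 3, 5), (0, 2, 4, 5), (0, 3, 4, 5), (1, 2, 3, 4), (1, 2, 3, 5), (1, 2, 4, 5), (1, 3, 4, 5), (2, 3, 4, 5)] :
        List (Fin 6 × Fin 6 × Fin 6 × Fin 6)) := by decide +kernel
  have h := key i j k l hij hjk hkl
  simp only [List.mem_cons, Prod.mk.injEq, List.not_mem_nil, or_false] at h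
  rcases h with ⟨rfl, rfl, rfl, rfl⟩ | ⟨rfl, rfl, rfl, rfl⟩ | ⟨rfl, rfl, rfl, rfl⟩ | ⟨rfl, rfl, rfl, rfl⟩ | ⟨rfl, rfl, rfl, rfl⟩ | ⟨rfl, rfl, rfl, rfl⟩ | ⟨rfl, rfl, rfl, rfl⟩ | ⟨rfl, rfl, rfl, rfl⟩ | ⟨rfl, rfl, rfl, rfl⟩ | ⟨rfl, rfl, rfl, rfl⟩ | ⟨rfl, rfl, rfl, rfl⟩ | ⟨rfl, rfl, rfl, rfl⟩ | ⟨rfl, rfl, rfl, rfl⟩ | ⟨rfl, rfl, rfl, rfl⟩ | ⟨rfl, rfl, rfl, rfl⟩ <;> rfl

theorem bel_congr (B C : Fin 6 → Fin 6 → Fin 6 → Fin 6 → Bool)
    (h : ∀ i j k l, i < j → j < k → k < l → B i j k l = C i j k l)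
    {i j k : Fin 6} (hij : i < j) (hjk : j < k) (d : Fin 6) : bel B i j k d = bel C i j k d := by
  unfold bel
  by_cases h1 : d < i
  · rw [if_pos h1, if_pos h1, h d i j k h1 hij hjk]
  rw [if_neg h1, if_neg h1]
  by_cases h2 : d = i
  · rw [if_pos h2, if_pos h2]
  rw [if_neg h2, if_neg h2]
  have h2' : i < d := lt_of_le_of_ne (not_lt.mp h1) (Ne.symm h2)
  by_cases h3 : d < j
  · rw [if_pos h3, if_pos h3, h i d j k h2' h3 hjk]
  rw [if_neg h3, if_neg h3]
  by_cases h4 : d = j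
  · rw [if_pos h4, if_pos h4]
  rw [if_neg h4, if_neg h4]
  have h4' : j < d := lt_of_le_of_ne (not_lt.mp h3) (Ne.symm h4)
  by_cases h5 : d < k
  · rw [if_pos h5, if_pos h5, h i j d k hij h4' h5]
  rw [if_neg h5, if_neg h5]
  by_cases h6 : d = k
  · rw [if_pos h6, if_pos h6]
  rw [if_neg h6, if_neg h6]
  have h6' : k < d := lt_of_le_of_ne (not_lt.mp h5) (Ne.symm h6)
  rw [h i j k d hij hjk h6']

/-- At least six triples of a perturbed convex hexagon have exactly one index below. -/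
theorem six_triples (a b c : Fin 6 → ℝ) (u v w : ℝ)
    (hO : ∀ i j k, i < j → j < k → 0 < orr a b c i j k u v w)
    (hD : ∀ i j k l, i < j → j < k → k < l → chi a b c i j k l ≠ 0) :
    6 ≤ ((univ : Finset (Fin 6 × Fin 6 × Fin 6)).filter fun t => t.1 < t.2.1 ∧ t.2.1 < t.2.2 ∧
      ((univ : Finset (Fin 6)).filter fun d => chi a b c t.1 t.2.1 t.2.2 d < 0).card = 1).card := by
  set B : Fin 6 → Fin 6 → Fin 6 → Fin 6 → Bool :=
    fun i j k l => decide (0 < chi a b c i j k l) with hB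
  have hm : mono (B 0 1 2 3) (B 0 1 2 4) (B 0 1 2 5) (B 0 1 3 4) (B 0 1 3 5) (B 0 1 4 5) (B 0 2 3 4) (B 0 2 3 5) (B 0 2 4 5) (B 0 3 4 5) (B 1 2 3 4) (B 1 2 3 5) (B 1 2 4 5) (B 1 3 4 5) (B 2 3 4 5) = true := by
    have f0012 : cnd (B 1 2 3 4) (B 0 2 3 4) (B 0 1 3 4) = true :=
      cnd_of (pat_012 a b c 0 1 2 3 4 u v w) (hO 0 3 4 (by decide) (by decide)) (hO 1 3 4 (by decide) (by decide)) (hO 2 3 4 (by decide) (by decide))
        (hD 1 2 3 4 (by decide) (by decide) (by decide)) (hD 0 1 3 4 (by decide) (by decide) (by decide))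
    have f0013 : cnd (B 1 2 3 4) (B 0 2 3 4) (B 0 1 2 4) = true :=
      cnd_of (pat_013 a b c 0 1 2 3 4 u v w) (hO 0 2 4 (by decide) (by decide)) (hO 1 2 4 (by decide) (by decide)) (hO 2 3 4 (by decide) (by decide))
        (hD 1 2 3 4 (by decide) (by decide) (by decide)) (hD 0 1 2 4 (by decide) (by decide) (by decide))
    have f0014 : cnd (B 1 2 3 4) (B 0 2 3 4) (B 0 1 2 3) = true :=
      cnd_of (pat_014 a b c 0 1 2 3 4 u v w) (hO 0 2 3 (by decide) (by decide)) (hO 1 2 3 (by decide) (by decide)) (hO 2 3 4 (by decide) (by decide))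
        (hD 1 2 3 4 (by decide) (by decide) (by decide)) (hD 0 1 2 3 (by decide) (by decide) (by decide))
    have f0023 : cnd (B 1 2 3 4) (B 0 1 3 4) (B 0 1 2 4) = true :=
      cnd_of (pat_023 a b c 0 1 2 3 4 u v w) (hO 0 1 4 (by decide) (by decide)) (hO 1 2 4 (by decide) (by decide)) (hO 1 3 4 (by decide) (by decide))
        (hD 1 2 3 4 (by decide) (by decide) (by decide)) (hD 0 1 2 4 (by decide) (by decide) (by decide))
    have f0024 : cnd (B 1 2 3 4) (B 0 1 3 4) (B 0 1 2 3) = true :=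
      cnd_of (pat_024 a b c 0 1 2 3 4 u v w) (hO 0 1 3 (by decide) (by decide)) (hO 1 2 3 (by decide) (by decide)) (hO 1 3 4 (by decide) (by decide))
        (hD 1 2 3 4 (by decide) (by decide) (by decide)) (hD 0 1 2 3 (by decide) (by decide) (by decide))
    have f0034 : cnd (B 1 2 3 4) (B 0 1 2 4) (B 0 1 2 3) = true :=
      cnd_of (pat_034 a b c 0 1 2 3 4 u v w) (hO 0 1 2 (by decide) (by decide)) (hO 1 2 3 (by decide) (by decide)) (hO 1 2 4 (by decide) (by decide))
        (hD 1 2 3 4 (by decide) (by decide) (by decide)) (hD 0 1 2 3 (by decide) (by decide) (by decide))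
    have f0123 : cnd (B 0 2 3 4) (B 0 1 3 4) (B 0 1 2 4) = true :=
      cnd_of (pat_123 a b c 0 1 2 3 4 u v w) (hO 0 1 4 (by decide) (by decide)) (hO 0 2 4 (by decide) (by decide)) (hO 0 3 4 (by decide) (by decide))
        (hD 0 2 3 4 (by decide) (by decide) (by decide)) (hD 0 1 2 4 (by decide) (by decide) (by decide))
    have f0124 : cnd (B 0 2 3 4) (B 0 1 3 4) (B 0 1 2 3) = true :=
      cnd_of (pat_124 a b c 0 1 2 3 4 u v w) (hO 0 1 3 (by decide) (by decide)) (hO 0 2 3 (by decide) (by decide)) (hO 0 3 4 (by decide) (by decide))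
        (hD 0 2 3 4 (by decide) (by decide) (by decide)) (hD 0 1 2 3 (by decide) (by decide) (by decide))
    have f0134 : cnd (B 0 2 3 4) (B 0 1 2 4) (B 0 1 2 3) = true :=
      cnd_of (pat_134 a b c 0 1 2 3 4 u v w) (hO 0 1 2 (by decide) (by decide)) (hO 0 2 3 (by decide) (by decide)) (hO 0 2 4 (by decide) (by decide))
        (hD 0 2 3 4 (by decide) (by decide) (by decide)) (hD 0 1 2 3 (by decide) (by decide) (by decide))
    have f0234 : cnd (B 0 1 3 4) (B 0 1 2 4) (B 0 1 2 3) = true :=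
      cnd_of (pat_234 a b c 0 1 2 3 4 u v w) (hO 0 1 2 (by decide) (by decide)) (hO 0 1 3 (by decide) (by decide)) (hO 0 1 4 (by decide) (by decide))
        (hD 0 1 3 4 (by decide) (by decide) (by decide)) (hD 0 1 2 3 (by decide) (by decide) (by decide))
    have f1012 : cnd (B 1 2 3 5) (B 0 2 3 5) (B 0 1 3 5) = true :=
      cnd_of (pat_012 a b c 0 1 2 3 5 u v w) (hO 0 3 5 (by decide) (by decide)) (hO 1 3 5 (by decide) (by decide)) (hO 2 3 5 (by decide) (by decide))
        (hD 1 2 3 5 (by decide) (by decide) (by decide)) (hD 0 1 3 5 (by decide) (by decide) (by decide))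
    have f1013 : cnd (B 1 2 3 5) (B 0 2 3 5) (B 0 1 2 5) = true :=
      cnd_of (pat_013 a b c 0 1 2 3 5 u v w) (hO 0 2 5 (by decide) (by decide)) (hO 1 2 5 (by decide) (by decide)) (hO 2 3 5 (by decide) (by decide))
        (hD 1 2 3 5 (by decide) (by decide) (by decide)) (hD 0 1 2 5 (by decide) (by decide) (by decide))
    have f1014 : cnd (B 1 2 3 5) (B 0 2 3 5) (B 0 1 2 3) = true :=
      cnd_of (pat_014 a b c 0 1 2 3 5 u v w) (hO 0 2 3 (by decide) (by decide)) (hO 1 2 3 (by decide) (by decide)) (hO 2 3 5 (by decide) (by decide))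
        (hD 1 2 3 5 (by decide) (by decide) (by decide)) (hD 0 1 2 3 (by decide) (by decide) (by decide))
    have f1023 : cnd (B 1 2 3 5) (B 0 1 3 5) (B 0 1 2 5) = true :=
      cnd_of (pat_023 a b c 0 1 2 3 5 u v w) (hO 0 1 5 (by decide) (by decide)) (hO 1 2 5 (by decide) (by decide)) (hO 1 3 5 (by decide) (by decide))
        (hD 1 2 3 5 (by decide) (by decide) (by decide)) (hD 0 1 2 5 (by decide) (by decide) (by decide))
    have f1024 : cnd (B 1 2 3 5) (B 0 1 3 5) (B 0 1 2 3) = true :=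
      cnd_of (pat_024 a b c 0 1 2 3 5 u v w) (hO 0 1 3 (by decide) (by decide)) (hO 1 2 3 (by decide) (by decide)) (hO 1 3 5 (by decide) (by decide))
        (hD 1 2 3 5 (by decide) (by decide) (by decide)) (hD 0 1 2 3 (by decide) (by decide) (by decide))
    have f1034 : cnd (B 1 2 3 5) (B 0 1 2 5) (B 0 1 2 3) = true :=
      cnd_of (pat_034 a b c 0 1 2 3 5 u v w) (hO 0 1 2 (by decide) (by decide)) (hO 1 2 3 (by decide) (by decide)) (hO 1 2 5 (by decide) (by decide))
        (hD 1 2 3 5 (by decide) (by decide) (by decide)) (hD 0 1 2 3 (by decide) (by decide) (by decide))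
    have f1123 : cnd (B 0 2 3 5) (B 0 1 3 5) (B 0 1 2 5) = true :=
      cnd_of (pat_123 a b c 0 1 2 3 5 u v w) (hO 0 1 5 (by decide) (by decide)) (hO 0 2 5 (by decide) (by decide)) (hO 0 3 5 (by decide) (by decide))
        (hD 0 2 3 5 (by decide) (by decide) (by decide)) (hD 0 1 2 5 (by decide) (by decide) (by decide))
    have f1124 : cnd (B 0 2 3 5) (B 0 1 3 5) (B 0 1 2 3) = true :=
      cnd_of (pat_124 a b c 0 1 2 3 5 u v w) (hO 0 1 3 (by decide) (by decide)) (hO 0 2 3 (by decide) (by decide)) (hO 0 3 5 (by decide) (by decide))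
        (hD 0 2 3 5 (by decide) (by decide) (by decide)) (hD 0 1 2 3 (by decide) (by decide) (by decide))
    have f1134 : cnd (B 0 2 3 5) (B 0 1 2 5) (B 0 1 2 3) = true :=
      cnd_of (pat_134 a b c 0 1 2 3 5 u v w) (hO 0 1 2 (by decide) (by decide)) (hO 0 2 3 (by decide) (by decide)) (hO 0 2 5 (by decide) (by decide))
        (hD 0 2 3 5 (by decide) (by decide) (by decide)) (hD 0 1 2 3 (by decide) (by decide) (by decide))
    have f1234 : cnd (B 0 1 3 5) (B 0 1 2 5) (B 0 1 2 3) = true :=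
      cnd_of (pat_234 a b c 0 1 2 3 5 u v w) (hO 0 1 2 (by decide) (by decide)) (hO 0 1 3 (by decide) (by decide)) (hO 0 1 5 (by decide) (by decide))
        (hD 0 1 3 5 (by decide) (by decide) (by decide)) (hD 0 1 2 3 (by decide) (by decide) (by decide))
    have f2012 : cnd (B 1 2 4 5) (B 0 2 4 5) (B 0 1 4 5) = true :=
      cnd_of (pat_012 a b c 0 1 2 4 5 u v w) (hO 0 4 5 (by decide) (by decide)) (hO 1 4 5 (by decide) (by decide)) (hO 2 4 5 (by decide) (by decide))
        (hD 1 2 4 5 (by decide) (by decide) (by decide)) (hD 0 1 4 5 (by decide) (by decide) (by decide))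
    have f2013 : cnd (B 1 2 4 5) (B 0 2 4 5) (B 0 1 2 5) = true :=
      cnd_of (pat_013 a b c 0 1 2 4 5 u v w) (hO 0 2 5 (by decide) (by decide)) (hO 1 2 5 (by decide) (by decide)) (hO 2 4 5 (by decide) (by decide))
        (hD 1 2 4 5 (by decide) (by decide) (by decide)) (hD 0 1 2 5 (by decide) (by decide) (by decide))
    have f2014 : cnd (B 1 2 4 5) (B 0 2 4 5) (B 0 1 2 4) = true :=
      cnd_of (pat_014 a b c 0 1 2 4 5 u v w) (hO 0 2 4 (by decide) (by decide)) (hO 1 2 4 (by decide) (by decide)) (hO 2 4 5 (by decide) (by decide))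
        (hD 1 2 4 5 (by decide) (by decide) (by decide)) (hD 0 1 2 4 (by decide) (by decide) (by decide))
    have f2023 : cnd (B 1 2 4 5) (B 0 1 4 5) (B 0 1 2 5) = true :=
      cnd_of (pat_023 a b c 0 1 2 4 5 u v w) (hO 0 1 5 (by decide) (by decide)) (hO 1 2 5 (by decide) (by decide)) (hO 1 4 5 (by decide) (by decide))
        (hD 1 2 4 5 (by decide) (by decide) (by decide)) (hD 0 1 2 5 (by decide) (by decide) (by decide))
    have f2024 : cnd (B 1 2 4 5) (B 0 1 4 5) (B 0 1 2 4) = true :=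
      cnd_of (pat_024 a b c 0 1 2 4 5 u v w) (hO 0 1 4 (by decide) (by decide)) (hO 1 2 4 (by decide) (by decide)) (hO 1 4 5 (by decide) (by decide))
        (hD 1 2 4 5 (by decide) (by decide) (by decide)) (hD 0 1 2 4 (by decide) (by decide) (by decide))
    have f2034 : cnd (B 1 2 4 5) (B 0 1 2 5) (B 0 1 2 4) = true :=
      cnd_of (pat_034 a b c 0 1 2 4 5 u v w) (hO 0 1 2 (by decide) (by decide)) (hO 1 2 4 (by decide) (by decide)) (hO 1 2 5 (by decide) (by decide))
        (hD 1 2 4 5 (by decide) (by decide) (by decide)) (hD 0 1 2 4 (by decide) (by decide) (by decide))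
    have f2123 : cnd (B 0 2 4 5) (B 0 1 4 5) (B 0 1 2 5) = true :=
      cnd_of (pat_123 a b c 0 1 2 4 5 u v w) (hO 0 1 5 (by decide) (by decide)) (hO 0 2 5 (by decide) (by decide)) (hO 0 4 5 (by decide) (by decide))
        (hD 0 2 4 5 (by decide) (by decide) (by decide)) (hD 0 1 2 5 (by decide) (by decide) (by decide))
    have f2124 : cnd (B 0 2 4 5) (B 0 1 4 5) (B 0 1 2 4) = true :=
      cnd_of (pat_124 a b c 0 1 2 4 5 u v w) (hO 0 1 4 (by decide) (by decide)) (hO 0 2 4 (by decide) (by decide)) (hO 0 4 5 (by decide) (by decide))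
        (hD 0 2 4 5 (by decide) (by decide) (by decide)) (hD 0 1 2 4 (by decide) (by decide) (by decide))
    have f2134 : cnd (B 0 2 4 5) (B 0 1 2 5) (B 0 1 2 4) = true :=
      cnd_of (pat_134 a b c 0 1 2 4 5 u v w) (hO 0 1 2 (by decide) (by decide)) (hO 0 2 4 (by decide) (by decide)) (hO 0 2 5 (by decide) (by decide))
        (hD 0 2 4 5 (by decide) (by decide) (by decide)) (hD 0 1 2 4 (by decide) (by decide) (by decide))
    have f2234 : cnd (B 0 1 4 5) (B 0 1 2 5) (B 0 1 2 4) = true :=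
      cnd_of (pat_234 a b c 0 1 2 4 5 u v w) (hO 0 1 2 (by decide) (by decide)) (hO 0 1 4 (by decide) (by decide)) (hO 0 1 5 (by decide) (by decide))
        (hD 0 1 4 5 (by decide) (by decide) (by decide)) (hD 0 1 2 4 (by decide) (by decide) (by decide))
    have f3012 : cnd (B 1 3 4 5) (B 0 3 4 5) (B 0 1 4 5) = true :=
      cnd_of (pat_012 a b c 0 1 3 4 5 u v w) (hO 0 4 5 (by decide) (by decide)) (hO 1 4 5 (by decide) (by decide)) (hO 3 4 5 (by decide) (by decide))
        (hD 1 3 4 5 (by decide) (by decide) (by decide)) (hD 0 1 4 5 (by decide) (by decide) (by decide))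
    have f3013 : cnd (B 1 3 4 5) (B 0 3 4 5) (B 0 1 3 5) = true :=
      cnd_of (pat_013 a b c 0 1 3 4 5 u v w) (hO 0 3 5 (by decide) (by decide)) (hO 1 3 5 (by decide) (by decide)) (hO 3 4 5 (by decide) (by decide))
        (hD 1 3 4 5 (by decide) (by decide) (by decide)) (hD 0 1 3 5 (by decide) (by decide) (by decide))
    have f3014 : cnd (B 1 3 4 5) (B 0 3 4 5) (B 0 1 3 4) = true :=
      cnd_of (pat_014 a b c 0 1 3 4 5 u v w) (hO 0 3 4 (by decide) (by decide)) (hO 1 3 4 (by decide) (by decide)) (hO 3 4 5 (by decide) (by decide))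
        (hD 1 3 4 5 (by decide) (by decide) (by decide)) (hD 0 1 3 4 (by decide) (by decide) (by decide))
    have f3023 : cnd (B 1 3 4 5) (B 0 1 4 5) (B 0 1 3 5) = true :=
      cnd_of (pat_023 a b c 0 1 3 4 5 u v w) (hO 0 1 5 (by decide) (by decide)) (hO 1 3 5 (by decide) (by decide)) (hO 1 4 5 (by decide) (by decide))
        (hD 1 3 4 5 (by decide) (by decide) (by decide)) (hD 0 1 3 5 (by decide) (by decide) (by decide))
    have f3024 : cnd (B 1 3 4 5) (B 0 1 4 5) (B 0 1 3 4) = true :=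
      cnd_of (pat_024 a b c 0 1 3 4 5 u v w) (hO 0 1 4 (by decide) (by decide)) (hO 1 3 4 (by decide) (by decide)) (hO 1 4 5 (by decide) (by decide))
        (hD 1 3 4 5 (by decide) (by decide) (by decide)) (hD 0 1 3 4 (by decide) (by decide) (by decide))
    have f3034 : cnd (B 1 3 4 5) (B 0 1 3 5) (B 0 1 3 4) = true :=
      cnd_of (pat_034 a b c 0 1 3 4 5 u v w) (hO 0 1 3 (by decide) (by decide)) (hO 1 3 4 (by decide) (by decide)) (hO 1 3 5 (by decide) (by decide))
        (hD 1 3 4 5 (by decide) (by decide) (by decide)) (hD 0 1 3 4 (by decide) (by decide) (by decide))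
    have f3123 : cnd (B 0 3 4 5) (B 0 1 4 5) (B 0 1 3 5) = true :=
      cnd_of (pat_123 a b c 0 1 3 4 5 u v w) (hO 0 1 5 (by decide) (by decide)) (hO 0 3 5 (by decide) (by decide)) (hO 0 4 5 (by decide) (by decide))
        (hD 0 3 4 5 (by decide) (by decide) (by decide)) (hD 0 1 3 5 (by decide) (by decide) (by decide))
    have f3124 : cnd (B 0 3 4 5) (B 0 1 4 5) (B 0 1 3 4) = true :=
      cnd_of (pat_124 a b c 0 1 3 4 5 u v w) (hO 0 1 4 (by decide) (by decide)) (hO 0 3 4 (by decide) (by decide)) (hO 0 4 5 (by decide) (by decide))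
        (hD 0 3 4 5 (by decide) (by decide) (by decide)) (hD 0 1 3 4 (by decide) (by decide) (by decide))
    have f3134 : cnd (B 0 3 4 5) (B 0 1 3 5) (B 0 1 3 4) = true :=
      cnd_of (pat_134 a b c 0 1 3 4 5 u v w) (hO 0 1 3 (by decide) (by decide)) (hO 0 3 4 (by decide) (by decide)) (hO 0 3 5 (by decide) (by decide))
        (hD 0 3 4 5 (by decide) (by decide) (by decide)) (hD 0 1 3 4 (by decide) (by decide) (by decide))
    have f3234 : cnd (B 0 1 4 5) (B 0 1 3 5) (B 0 1 3 4) = true :=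
      cnd_of (pat_234 a b c 0 1 3 4 5 u v w) (hO 0 1 3 (by decide) (by decide)) (hO 0 1 4 (by decide) (by decide)) (hO 0 1 5 (by decide) (by decide))
        (hD 0 1 4 5 (by decide) (by decide) (by decide)) (hD 0 1 3 4 (by decide) (by decide) (by decide))
    have f4012 : cnd (B 2 3 4 5) (B 0 3 4 5) (B 0 2 4 5) = true :=
      cnd_of (pat_012 a b c 0 2 3 4 5 u v w) (hO 0 4 5 (by decide) (by decide)) (hO 2 4 5 (by decide) (by decide)) (hO 3 4 5 (by decide) (by decide))
        (hD 2 3 4 5 (by decide) (by decide) (by decide)) (hD 0 2 4 5 (by decide) (by decide) (by decide))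
    have f4013 : cnd (B 2 3 4 5) (B 0 3 4 5) (B 0 2 3 5) = true :=
      cnd_of (pat_013 a b c 0 2 3 4 5 u v w) (hO 0 3 5 (by decide) (by decide)) (hO 2 3 5 (by decide) (by decide)) (hO 3 4 5 (by decide) (by decide))
        (hD 2 3 4 5 (by decide) (by decide) (by decide)) (hD 0 2 3 5 (by decide) (by decide) (by decide))
    have f4014 : cnd (B 2 3 4 5) (B 0 3 4 5) (B 0 2 3 4) = true :=
      cnd_of (pat_014 a b c 0 2 3 4 5 u v w) (hO 0 3 4 (by decide) (by decide)) (hO 2 3 4 (by decide) (by decide)) (hO 3 4 5 (by decide) (by decide))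
        (hD 2 3 4 5 (by decide) (by decide) (by decide)) (hD 0 2 3 4 (by decide) (by decide) (by decide))
    have f4023 : cnd (B 2 3 4 5) (B 0 2 4 5) (B 0 2 3 5) = true :=
      cnd_of (pat_023 a b c 0 2 3 4 5 u v w) (hO 0 2 5 (by decide) (by decide)) (hO 2 3 5 (by decide) (by decide)) (hO 2 4 5 (by decide) (by decide))
        (hD 2 3 4 5 (by decide) (by decide) (by decide)) (hD 0 2 3 5 (by decide) (by decide) (by decide))
    have f4024 : cnd (B 2 3 4 5) (B 0 2 4 5) (B 0 2 3 4) = true :=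
      cnd_of (pat_024 a b c 0 2 3 4 5 u v w) (hO 0 2 4 (by decide) (by decide)) (hO 2 3 4 (by decide) (by decide)) (hO 2 4 5 (by decide) (by decide))
        (hD 2 3 4 5 (by decide) (by decide) (by decide)) (hD 0 2 3 4 (by decide) (by decide) (by decide))
    have f4034 : cnd (B 2 3 4 5) (B 0 2 3 5) (B 0 2 3 4) = true :=
      cnd_of (pat_034 a b c 0 2 3 4 5 u v w) (hO 0 2 3 (by decide) (by decide)) (hO 2 3 4 (by decide) (by decide)) (hO 2 3 5 (by decide) (by decide))
        (hD 2 3 4 5 (by decide) (by decide) (by decide)) (hD 0 2 3 4 (by decide) (by decide) (by decide))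
    have f4123 : cnd (B 0 3 4 5) (B 0 2 4 5) (B 0 2 3 5) = true :=
      cnd_of (pat_123 a b c 0 2 3 4 5 u v w) (hO 0 2 5 (by decide) (by decide)) (hO 0 3 5 (by decide) (by decide)) (hO 0 4 5 (by decide) (by decide))
        (hD 0 3 4 5 (by decide) (by decide) (by decide)) (hD 0 2 3 5 (by decide) (by decide) (by decide))
    have f4124 : cnd (B 0 3 4 5) (B 0 2 4 5) (B 0 2 3 4) = true :=
      cnd_of (pat_124 a b c 0 2 3 4 5 u v w) (hO 0 2 4 (by decide) (by decide)) (hO 0 3 4 (by decide) (by decide)) (hO 0 4 5 (by decide) (by decide))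
        (hD 0 3 4 5 (by decide) (by decide) (by decide)) (hD 0 2 3 4 (by decide) (by decide) (by decide))
    have f4134 : cnd (B 0 3 4 5) (B 0 2 3 5) (B 0 2 3 4) = true :=
      cnd_of (pat_134 a b c 0 2 3 4 5 u v w) (hO 0 2 3 (by decide) (by decide)) (hO 0 3 4 (by decide) (by decide)) (hO 0 3 5 (by decide) (by decide))
        (hD 0 3 4 5 (by decide) (by decide) (by decide)) (hD 0 2 3 4 (by decide) (by decide) (by decide))
    have f4234 : cnd (B 0 2 4 5) (B 0 2 3 5) (B 0 2 3 4) = true :=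
      cnd_of (pat_234 a b c 0 2 3 4 5 u v w) (hO 0 2 3 (by decide) (by decide)) (hO 0 2 4 (by decide) (by decide)) (hO 0 2 5 (by decide) (by decide))
        (hD 0 2 4 5 (by decide) (by decide) (by decide)) (hD 0 2 3 4 (by decide) (by decide) (by decide))
    have f5012 : cnd (B 2 3 4 5) (B 1 3 4 5) (B 1 2 4 5) = true :=
      cnd_of (pat_012 a b c 1 2 3 4 5 u v w) (hO 1 4 5 (by decide) (by decide)) (hO 2 4 5 (by decide) (by decide)) (hO 3 4 5 (by decide) (by decide))
        (hD 2 3 4 5 (by decide) (by decide) (by decide)) (hD 1 2 4 5 (by decide) (by decide) (by decide))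
    have f5013 : cnd (B 2 3 4 5) (B 1 3 4 5) (B 1 2 3 5) = true :=
      cnd_of (pat_013 a b c 1 2 3 4 5 u v w) (hO 1 3 5 (by decide) (by decide)) (hO 2 3 5 (by decide) (by decide)) (hO 3 4 5 (by decide) (by decide))
        (hD 2 3 4 5 (by decide) (by decide) (by decide)) (hD 1 2 3 5 (by decide) (by decide) (by decide))
    have f5014 : cnd (B 2 3 4 5) (B 1 3 4 5) (B 1 2 3 4) = true :=
      cnd_of (pat_014 a b c 1 2 3 4 5 u v w) (hO 1 3 4 (by decide) (by decide)) (hO 2 3 4 (by decide) (by decide)) (hO 3 4 5 (by decide) (by decide))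
        (hD 2 3 4 5 (by decide) (by decide) (by decide)) (hD 1 2 3 4 (by decide) (by decide) (by decide))
    have f5023 : cnd (B 2 3 4 5) (B 1 2 4 5) (B 1 2 3 5) = true :=
      cnd_of (pat_023 a b c 1 2 3 4 5 u v w) (hO 1 2 5 (by decide) (by decide)) (hO 2 3 5 (by decide) (by decide)) (hO 2 4 5 (by decide) (by decide))
        (hD 2 3 4 5 (by decide) (by decide) (by decide)) (hD 1 2 3 5 (by decide) (by decide) (by decide))
    have f5024 : cnd (B 2 3 4 5) (B 1 2 4 5) (B 1 2 3 4) = true :=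
      cnd_of (pat_024 a b c 1 2 3 4 5 u v w) (hO 1 2 4 (by decide) (by decide)) (hO 2 3 4 (by decide) (by decide)) (hO 2 4 5 (by decide) (by decide))
        (hD 2 3 4 5 (by decide) (by decide) (by decide)) (hD 1 2 3 4 (by decide) (by decide) (by decide))
    have f5034 : cnd (B 2 3 4 5) (B 1 2 3 5) (B 1 2 3 4) = true :=
      cnd_of (pat_034 a b c 1 2 3 4 5 u v w) (hO 1 2 3 (by decide) (by decide)) (hO 2 3 4 (by decide) (by decide)) (hO 2 3 5 (by decide) (by decide))
        (hD 2 3 4 5 (by decide) (by decide) (by decide)) (hD 1 2 3 4 (by decide) (by decide) (by decide))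
    have f5123 : cnd (B 1 3 4 5) (B 1 2 4 5) (B 1 2 3 5) = true :=
      cnd_of (pat_123 a b c 1 2 3 4 5 u v w) (hO 1 2 5 (by decide) (by decide)) (hO 1 3 5 (by decide) (by decide)) (hO 1 4 5 (by decide) (by decide))
        (hD 1 3 4 5 (by decide) (by decide) (by decide)) (hD 1 2 3 5 (by decide) (by decide) (by decide))
    have f5124 : cnd (B 1 3 4 5) (B 1 2 4 5) (B 1 2 3 4) = true :=
      cnd_of (pat_124 a b c 1 2 3 4 5 u v w) (hO 1 2 4 (by decide) (by decide)) (hO 1 3 4 (by decide) (by decide)) (hO 1 4 5 (by decide) (by decide))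
        (hD 1 3 4 5 (by decide) (by decide) (by decide)) (hD 1 2 3 4 (by decide) (by decide) (by decide))
    have f5134 : cnd (B 1 3 4 5) (B 1 2 3 5) (B 1 2 3 4) = true :=
      cnd_of (pat_134 a b c 1 2 3 4 5 u v w) (hO 1 2 3 (by decide) (by decide)) (hO 1 3 4 (by decide) (by decide)) (hO 1 3 5 (by decide) (by decide))
        (hD 1 3 4 5 (by decide) (by decide) (by decide)) (hD 1 2 3 4 (by decide) (by decide) (by decide))
    have f5234 : cnd (B 1 2 4 5) (B 1 2 3 5) (B 1 2 3 4) = true :=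
      cnd_of (pat_234 a b c 1 2 3 4 5 u v w) (hO 1 2 3 (by decide) (by decide)) (hO 1 2 4 (by decide) (by decide)) (hO 1 2 5 (by decide) (by decide))
        (hD 1 2 4 5 (by decide) (by decide) (by decide)) (hD 1 2 3 4 (by decide) (by decide) (by decide))
    unfold mono
    rw [f0012, f0013, f0014, f0023, f0024, f0034, f0123, f0124, f0134, f0234, f1012, f1013, f1014, f1023, f1024, f1034, f1123, f1124, f1134, f1234, f2012, f2013, f2014, f2023, f2024, f2034, f2123, f2124, f2134, f2234, f3012, f3013, f3014, f3023, f3024, f3034, f3123, f3124, f3134, f3234, f4012, f4013, f4014, f4023, f4024, f4034, f4123, f4124, f4134, f4234, f5012, f5013, f5014, f5023, f5024, f5034, f5123, f5124, f5134, f5234]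
    rfl
  have h6 := finite_check _ _ _ _ _ _ _ _ _ _ _ _ _ _ _ hm
  refine le_trans h6 (Finset.card_le_card ?_)
  rintro ⟨i, j, k⟩ ht
  simp only [Finset.mem_filter, Finset.mem_univ, true_and] at ht ⊢
  obtain ⟨h1, h2, h3⟩ := ht
  refine ⟨h1, h2, ?_⟩
  rw [← h3]
  congr 1
  ext d
  simp only [Finset.mem_filter, Finset.mem_univ, true_and]
  rw [bel_iff a b c hD h1 h2 d]
  rw [bel_congr _ _ (fun i j k l hij hjk hkl => (tab_eq B hij hjk hkl)) h1 h2 d]

end Pool.Agent.Helper61.SIG9
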