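import Pool.Agent.Helper67.SIG.Pert
import Pool.Agent.Helper61.SIG9.HexSign

/-!
# Order-two pairs and hexagonal centres

The unused triples at the hexagonal centres.
-/

set_option autoImplicit false

open Finset Filter Topology Pool.Agent.Helper67.SIG

namespace Pool.Agent.Helper61.SIG9

variable {ι : Type*}

/-- Cyclically increasing triples. -/
def cyc (t : Fin 6 × Fin 6 × Fin 6) : Prop :=
  (t.1 < t.2.1 ∧ t.2.1 < t.2.2) ∨ (t.2.1 < t.2.2 ∧ t.2.2 < t.1) ∨ (t.2.2 < t.1 ∧ t.1 < t.2.1)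

instance (t : Fin 6 × Fin 6 × Fin 6) : Decidable (cyc t) := by unfold cyc; infer_instance

theorem cyc_cases : ∀ i j k : Fin 6, cyc (i, j, k) →
    j = i + 1 ∨ j = i + 2 ∨ j = i + 3 ∨ (j = i + 4 ∧ k = i + 5) := by decide +kernel

theorem cyc_ne : ∀ i j k : Fin 6, cyc (i, j, k) → i ≠ j ∧ j ≠ k ∧ i ≠ k := by decide +kernel

/-- The eighteen ordered triples. -/
theorem eighteen (a b c : Fin 6 → ℝ) (u v w : ℝ)
    (hO : ∀ i j k, i < j → j < k → 0 < orr a b c i j k u v w)
    (hD : ∀ i j k l, i < j → j < k → k < l → chi a b c i j k l ≠ 0) :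
    18 ≤ ((univ : Finset (Fin 6 × Fin 6 × Fin 6)).filter fun t => cyc t ∧
      ((univ : Finset (Fin 6)).filter fun d => chi a b c t.1 t.2.1 t.2.2 d < 0).card = 1).card := by
  classical
  have h6 := six_triples a b c u v w hO hD
  set F := (univ : Finset (Fin 6 × Fin 6 × Fin 6)).filter fun t => t.1 < t.2.1 ∧ t.2.1 < t.2.2 ∧
      ((univ : Finset (Fin 6)).filter fun d => chi a b c t.1 t.2.1 t.2.2 d < 0).card = 1 with hF
  set R := (univ : Finset (Fin 6 × Fin 6 × Fin 6)).filter fun t => cyc t ∧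
      ((univ : Finset (Fin 6)).filter fun d => chi a b c t.1 t.2.1 t.2.2 d < 0).card = 1 with hR
  let r1 : Fin 6 × Fin 6 × Fin 6 → Fin 6 × Fin 6 × Fin 6 := fun t => (t.2.1, t.2.2, t.1)
  let r2 : Fin 6 × Fin 6 × Fin 6 → Fin 6 × Fin 6 × Fin 6 := fun t => (t.2.2, t.1, t.2.1)
  have hr1 : Function.Injective r1 := by
    rintro ⟨i, j, k⟩ ⟨i', j', k'⟩ h
    simp only [r1, Prod.mk.injEq] at h
    obtain ⟨rfl, rfl, rfl⟩ := h
    rfl
  have hr2 : Function.Injective r2 := by
    rintro ⟨i, j, k⟩ ⟨i', j', k'⟩ h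
    simp only [r2, Prod.mk.injEq] at h
    obtain ⟨rfl, rfl, rfl⟩ := h
    rfl
  have hmem : ∀ t, t ∈ F ↔ t.1 < t.2.1 ∧ t.2.1 < t.2.2 ∧
      ((univ : Finset (Fin 6)).filter fun d => chi a b c t.1 t.2.1 t.2.2 d < 0).card = 1 := by
    intro t; simp only [hF, Finset.mem_filter, Finset.mem_univ, true_and]
  have hsub : F ∪ (F.image r1 ∪ F.image r2) ⊆ R := by
    intro t ht
    simp only [Finset.mem_union, Finset.mem_image] at ht
    simp only [hR, Finset.mem_filter, Finset.mem_univ, true_and]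
    rcases ht with ht | ⟨s, hs, rfl⟩ | ⟨s, hs, rfl⟩
    · obtain ⟨h1, h2, h3⟩ := (hmem t).1 ht
      exact ⟨Or.inl ⟨h1, h2⟩, h3⟩
    · obtain ⟨h1, h2, h3⟩ := (hmem s).1 hs
      refine ⟨Or.inr (Or.inr ⟨h1, h2⟩), ?_⟩
      rw [← h3]
      simp only [r1]
      congr 1
      ext d
      simp only [Finset.mem_filter, Finset.mem_univ, true_and]
      rw [chi_rot]
    · obtain ⟨h1, h2, h3⟩ := (hmem s).1 hs
      refine ⟨Or.inr (Or.inl ⟨h1, h2⟩), ?_⟩
      rw [← h3]
      simp only [r2]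
      congr 1
      ext d
      simp only [Finset.mem_filter, Finset.mem_univ, true_and]
      rw [← chi_rot]
  have hd1 : Disjoint (F.image r1) (F.image r2) := by
    rw [Finset.disjoint_left]
    intro t ht ht'
    obtain ⟨s, hs, rfl⟩ := Finset.mem_image.mp ht
    obtain ⟨s', hs', h⟩ := Finset.mem_image.mp ht'
    obtain ⟨h1, h2, _⟩ := (hmem s).1 hs
    obtain ⟨h1', h2', _⟩ := (hmem s').1 hs'
    simp only [r1, r2, Prod.mk.injEq] at h
    obtain ⟨g1, g2, g3⟩ := h
    rw [← g1, ← g2] at h2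
    exact absurd (h1'.trans h2') (lt_asymm h2)
  have hd2 : Disjoint F (F.image r1 ∪ F.image r2) := by
    rw [Finset.disjoint_left]
    intro t ht ht'
    obtain ⟨h1, h2, _⟩ := (hmem t).1 ht
    simp only [Finset.mem_union, Finset.mem_image] at ht'
    rcases ht' with ⟨s, hs, rfl⟩ | ⟨s, hs, rfl⟩
    · obtain ⟨h1', h2', _⟩ := (hmem s).1 hs
      simp only [r1] at h1 h2
      exact absurd (h1.trans h2) (lt_asymm h1')
    · obtain ⟨h1', h2', _⟩ := (hmem s).1 hs
      simp only [r2] at h1 h2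
      exact absurd (h1.trans h2) (lt_asymm h2')
  have hcard := Finset.card_le_card hsub
  rw [Finset.card_union_of_disjoint hd2, Finset.card_union_of_disjoint hd1,
    Finset.card_image_of_injective _ hr1, Finset.card_image_of_injective _ hr2] at hcard
  omega

/-- Continuity of `chi` along the perturbation. -/
theorem chi_pert_cont [Fintype ι] (a b c : ι → ℝ) (i j k x : ι) :
    Continuous fun ε : ℝ => chi (pa a ε) (pb b ε) (pc c ε) i j k x := by
  unfold chi pa pb pc; fun_prop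

theorem orr_pert_cont [Fintype ι] (a b c : ι → ℝ) (i j k : ι) (u v w : ℝ) :
    Continuous fun ε : ℝ => orr (pa a ε) (pb b ε) (pc c ε) i j k u v w := by
  unfold orr pa pb pc; fun_prop

theorem pa_zero [Fintype ι] (a : ι → ℝ) : pa a 0 = a := by
  funext x; simp [pa]
theorem pb_zero [Fintype ι] (a : ι → ℝ) : pb a 0 = a := by
  funext x; simp [pb]
theorem pc_zero [Fintype ι] (a : ι → ℝ) : pc a 0 = a := by
  funext x; simp [pc]

theorem chi_pert_pos [Fintype ι] (a b c : ι → ℝ) {i j k x : ι} (h : 0 < chi a b c i j k x) :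
    ∀ᶠ ε in 𝓝 (0 : ℝ), 0 < chi (pa a ε) (pb b ε) (pc c ε) i j k x := by
  have h0 : 0 < chi (pa a 0) (pb b 0) (pc c 0) i j k x := by
    rw [pa_zero, pb_zero, pc_zero]; exact h
  exact (chi_pert_cont a b c i j k x).continuousAt.eventually (lt_mem_nhds h0)

theorem chi_pert_neg [Fintype ι] (a b c : ι → ℝ) {i j k x : ι} (h : chi a b c i j k x < 0) :
    ∀ᶠ ε in 𝓝 (0 : ℝ), chi (pa a ε) (pb b ε) (pc c ε) i j k x < 0 := by
  have h0 : chi (pa a 0) (pb b 0) (pc c 0) i j k x < 0 := by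
    rw [pa_zero, pb_zero, pc_zero]; exact h
  exact (chi_pert_cont a b c i j k x).continuousAt.eventually (gt_mem_nhds h0)

theorem orr_pert_pos [Fintype ι] (a b c : ι → ℝ) {i j k : ι} {u v w : ℝ}
    (h : 0 < orr a b c i j k u v w) :
    ∀ᶠ ε in 𝓝 (0 : ℝ), 0 < orr (pa a ε) (pb b ε) (pc c ε) i j k u v w := by
  have h0 : 0 < orr (pa a 0) (pb b 0) (pc c 0) i j k u v w := by
    rw [pa_zero, pb_zero, pc_zero]; exact h
  exact (orr_pert_cont a b c i j k u v w).continuousAt.eventually (lt_mem_nhds h0)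

/-- A witness is stable together with all strict signs. -/
theorem witness_pert_sign [Fintype ι] (a b c : ι → ℝ)
    (hN : ∀ i, ∃ u v w : ℝ, ∀ q, q ≠ i → 0 < dif a b c i q u v w) {i j : ι} (hij : i ≠ j)
    {u v w : ℝ} (h0 : dif a b c i j u v w = 0) :
    ∀ᶠ ε in 𝓝 (0 : ℝ), ∃ u' v' w' : ℝ, dif (pa a ε) (pb b ε) (pc c ε) i j u' v' w' = 0 ∧
      (∀ x, 0 < dif a b c i x u v w → 0 < dif (pa a ε) (pb b ε) (pc c ε) i x u' v' w') ∧
      (∀ x, dif a b c i x u v w < 0 → dif (pa a ε) (pb b ε) (pc c ε) i x u' v' w' < 0) := by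
  obtain ⟨u', v', w', hz⟩ := hN i
  have hz' := hz j hij.symm
  let s : ℝ → ℝ := fun ε => - dif (pa a ε) (pb b ε) (pc c ε) i j u v w /
    dif (pa a ε) (pb b ε) (pc c ε) i j u' v' w'
  have hs0 : s 0 = 0 := by
    show - dif (pa a 0) (pb b 0) (pc c 0) i j u v w / dif (pa a 0) (pb b 0) (pc c 0) i j u' v' w' = 0
    rw [dif_pert_zero, h0]; simp
  have hscont : ContinuousAt s 0 := by
    refine ContinuousAt.div (dif_pert_cont a b c i j u v w).continuousAt.neg
      (dif_pert_cont a b c i j u' v' w').continuousAt ?_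
    rw [dif_pert_zero]; exact hz'.ne'
  have hlin : ∀ (q : ι) (ε r : ℝ), dif (pa a ε) (pb b ε) (pc c ε) i q (u + r * u') (v + r * v')
      (w + r * w') = dif (pa a ε) (pb b ε) (pc c ε) i q u v w +
        r * dif (pa a ε) (pb b ε) (pc c ε) i q u' v' w' := by
    intro q ε r; unfold dif; ring
  have hcc : ∀ x, ContinuousAt (fun ε => dif (pa a ε) (pb b ε) (pc c ε) i x (u + s ε * u')
      (v + s ε * v') (w + s ε * w')) 0 := by
    intro x
    simp only [hlin]
    exact (dif_pert_cont a b c i x u v w).continuousAt.add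
      (hscont.mul (dif_pert_cont a b c i x u' v' w').continuousAt)
  have hval : ∀ x, dif (pa a 0) (pb b 0) (pc c 0) i x (u + s 0 * u') (v + s 0 * v')
      (w + s 0 * w') = dif a b c i x u v w := by
    intro x
    rw [hs0, dif_pert_zero]; simp
  have hx : ∀ᶠ ε in 𝓝 (0 : ℝ), ∀ x, 0 < dif a b c i x u v w →
      0 < dif (pa a ε) (pb b ε) (pc c ε) i x (u + s ε * u') (v + s ε * v') (w + s ε * w') := by
    rw [Filter.eventually_all]
    intro x
    by_cases hx : 0 < dif a b c i x u v w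
    · have hpos : 0 < dif (pa a 0) (pb b 0) (pc c 0) i x (u + s 0 * u') (v + s 0 * v')
          (w + s 0 * w') := by
        rw [hval]; exact hx
      filter_upwards [(hcc x).eventually (lt_mem_nhds hpos)] with ε h _ using h
    · exact Filter.Eventually.of_forall fun ε h => absurd h hx
  have hy : ∀ᶠ ε in 𝓝 (0 : ℝ), ∀ x, dif a b c i x u v w < 0 →
      dif (pa a ε) (pb b ε) (pc c ε) i x (u + s ε * u') (v + s ε * v') (w + s ε * w') < 0 := by
    rw [Filter.eventually_all]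
    intro x
    by_cases hx : dif a b c i x u v w < 0
    · have hneg : dif (pa a 0) (pb b 0) (pc c 0) i x (u + s 0 * u') (v + s 0 * v')
          (w + s 0 * w') < 0 := by
        rw [hval]; exact hx
      filter_upwards [(hcc x).eventually (gt_mem_nhds hneg)] with ε h _ using h
    · exact Filter.Eventually.of_forall fun ε h => absurd h hx
  have hden : ∀ᶠ ε in 𝓝 (0 : ℝ), 0 < dif (pa a ε) (pb b ε) (pc c ε) i j u' v' w' := by
    have h5 : 0 < dif (pa a 0) (pb b 0) (pc c 0) i j u' v' w' := by rw [dif_pert_zero]; exact hz'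
    exact (dif_pert_cont a b c i j u' v' w').continuousAt.eventually (lt_mem_nhds h5)
  filter_upwards [hx, hy, hden] with ε h1 h2 h3
  refine ⟨u + s ε * u', v + s ε * v', w + s ε * w', ?_, h1, h2⟩
  rw [hlin]
  show _ + (- dif (pa a ε) (pb b ε) (pc c ε) i j u v w /
    dif (pa a ε) (pb b ε) (pc c ε) i j u' v' w') * _ = 0
  field_simp
  ring

/-- The data of a hexagonal centre. -/
structure HexData [Fintype ι] (a b c : ι → ℝ) (m : ι) (h : Fin 6 → ι) : Prop where
  inj : Function.Injective h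
  notin : ∀ s, h s ≠ m
  orr_pos : ∃ u v w : ℝ, ∀ i j k : Fin 6, i < j → j < k → 0 < orr a b c (h i) (h j) (h k) u v w
  centre : ∀ i j k : Fin 6, i < j → j < k → chi a b c (h i) (h j) (h k) m < 0
  outside : ∀ x, x ≠ m → (∀ s, h s ≠ x) → ∀ i j k : Fin 6, i < j → j < k →
    0 < chi a b c (h i) (h j) (h k) x

/-- The witness of a good pair, with the additional sign at hexagons. -/
def Wit [Fintype ι] [DecidableEq ι] (a b c : ι → ℝ) (H : Finset ι) (h : ι → Fin 6 → ι)
    (p : ι × ι) (u v w : ℝ) : Prop :=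
  dif a b c p.1 p.2 u v w = 0 ∧
  (univ.filter fun x => x ≠ p.1 ∧ x ≠ p.2 ∧ dif a b c p.1 x u v w ≤ 0).card ≤ 2 ∧
  ∀ m ∈ H, ∀ s : Fin 6, p.1 = h m s → p.2 = h m (s + 4) → dif a b c p.1 (h m (s + 5)) u v w < 0

/-- The bound in general position. -/
theorem extra_generic [Fintype ι] [DecidableEq ι] (a b c : ι → ℝ)
    (hinj : Function.Injective a) (hgen : Gen a b c)
    (hN : ∀ i, ∃ u v w : ℝ, ∀ q, q ≠ i → 0 < dif a b c i q u v w)
    (hcard : 7 ≤ Fintype.card ι) (H : Finset ι) (h : ι → Fin 6 → ι)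
    (hH : ∀ m ∈ H, HexData a b c m (h m))
    (hdisj : ∀ m ∈ H, ∀ m' ∈ H, m ≠ m' → ∀ i j k i' j' k' : Fin 6, i ≠ j → j ≠ k → i ≠ k →
      h m i = h m' i' → h m j = h m' j' → h m k = h m' k' → False)
    (G : Finset (ι × ι)) (hG1 : ∀ p ∈ G, p.1 ≠ p.2)
    (hG2 : ∀ p ∈ G, ∀ m ∈ H, ∀ s : Fin 6, p.1 = h m s → p.2 ≠ h m (s + 3))
    (hG3 : ∀ p ∈ G, ∃ u v w : ℝ, Wit a b c H h p u v w) :
    G.card + 6 * H.card ≤ 18 * (Fintype.card ι - 4) := by
  classical
  have hT := card_T a b c hinj hgen hN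
  set T := (univ : Finset (ι × ι × ι)).filter fun t => cnt a b c t.1 t.2.1 t.2.2 = 2 with hTdef
  -- local triples
  let R : ι → Finset (Fin 6 × Fin 6 × Fin 6) := fun m =>
    (univ : Finset (Fin 6 × Fin 6 × Fin 6)).filter fun t => cyc t ∧
      ((univ : Finset (Fin 6)).filter fun d =>
        chi a b c (h m t.1) (h m t.2.1) (h m t.2.2) (h m d) < 0).card = 1
  let Tm : ι → Finset (ι × ι × ι) := fun m =>
    (R m).image fun t => (h m t.1, h m t.2.1, h m t.2.2)
  have hR18 : ∀ m ∈ H, 18 ≤ (Tm m).card := by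
    intro m hm
    have hd := hH m hm
    show 18 ≤ ((R m).image fun t => (h m t.1, h m t.2.1, h m t.2.2)).card
    rw [Finset.card_image_of_injective]
    · obtain ⟨u, v, w, ho⟩ := hd.orr_pos
      exact eighteen (fun s => a (h m s)) (fun s => b (h m s)) (fun s => c (h m s)) u v w ho
        (fun i j k l hij hjk hkl => hgen _ _ _ _
          (fun e => hij.ne (hd.inj e)) (fun e => (hij.trans hjk).ne (hd.inj e))
          (fun e => hjk.ne (hd.inj e)) (fun e => ((hij.trans hjk).trans hkl).ne' (hd.inj e))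
          (fun e => (hjk.trans hkl).ne' (hd.inj e)) (fun e => hkl.ne' (hd.inj e)))
    · rintro ⟨i, j, k⟩ ⟨i', j', k'⟩ e
      simp only [Prod.mk.injEq] at e
      rw [hd.inj e.1, hd.inj e.2.1, hd.inj e.2.2]
  -- signs for cyclic triples
  have hcyc : ∀ m ∈ H, ∀ x, ∀ t : Fin 6 × Fin 6 × Fin 6, cyc t →
      ∃ i j k : Fin 6, i < j ∧ j < k ∧
        chi a b c (h m t.1) (h m t.2.1) (h m t.2.2) x = chi a b c (h m i) (h m j) (h m k) x := by
    rintro m hm x ⟨i, j, k⟩ ht
    rcases ht with ⟨h1, h2⟩ | ⟨h1, h2⟩ | ⟨h1, h2⟩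
    · exact ⟨i, j, k, h1, h2, rfl⟩
    · exact ⟨j, k, i, h1, h2, (chi_rot a b c _ _ _ _).symm⟩
    · exact ⟨k, i, j, h1, h2, by
        show chi a b c (h m i) (h m j) (h m k) x = chi a b c (h m k) (h m i) (h m j) x
        rw [chi_rot]⟩
  have hTmT : ∀ m ∈ H, Tm m ⊆ T := by
    intro m hm y hy
    obtain ⟨t, ht, rfl⟩ := Finset.mem_image.mp hy
    obtain ⟨_, hct, h1⟩ := Finset.mem_filter.mp ht
    have hd := hH m hm
    rw [hTdef, Finset.mem_filter]
    refine ⟨Finset.mem_univ _, ?_⟩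
    show cnt a b c (h m t.1) (h m t.2.1) (h m t.2.2) = 2
    unfold cnt
    have hset : (univ.filter fun x => chi a b c (h m t.1) (h m t.2.1) (h m t.2.2) x < 0) =
        insert m (((univ : Finset (Fin 6)).filter fun d =>
          chi a b c (h m t.1) (h m t.2.1) (h m t.2.2) (h m d) < 0).image (h m)) := by
      ext x
      simp only [Finset.mem_filter, Finset.mem_univ, true_and, Finset.mem_insert,
        Finset.mem_image]
      obtain ⟨i, j, k, hij, hjk, he⟩ := hcyc m hm x t hct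
      constructor
      · intro hx
        by_cases hxm : x = m
        · exact Or.inl hxm
        · right
          by_contra hcon
          push Not at hcon
          have := hd.outside x hxm (fun s hs => hcon s (by rw [hs]; exact hx) hs) i j k hij hjk
          rw [he] at hx
          linarith
      · rintro (rfl | ⟨d, hd1, rfl⟩)
        · rw [he]
          exact hd.centre i j k hij hjk
        · exact hd1
    rw [hset, Finset.card_insert_of_notMem, Finset.card_image_of_injective _ hd.inj, h1]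
    intro hcon
    obtain ⟨s, _, hs⟩ := Finset.mem_image.mp hcon
    exact hd.notin s hs
  have hTmdisj : ∀ m ∈ H, ∀ m' ∈ H, m ≠ m' → Disjoint (Tm m) (Tm m') := by
    intro m hm m' hm' hne
    rw [Finset.disjoint_left]
    intro y hy hy'
    obtain ⟨t, ht, rfl⟩ := Finset.mem_image.mp hy
    obtain ⟨t', ht', he⟩ := Finset.mem_image.mp hy'
    obtain ⟨_, hct, _⟩ := Finset.mem_filter.mp ht
    simp only [Prod.mk.injEq] at he
    obtain ⟨n1, n2, n3⟩ := cyc_ne _ _ _ hct
    exact hdisj m hm m' hm' hne t.1 t.2.1 t.2.2 t'.1 t'.2.1 t'.2.2 n1 n2 n3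
      he.1.symm he.2.1.symm he.2.2.symm
  -- near pairs
  set Near := G.filter fun p => ∃ m ∈ H, ∃ s : Fin 6, p.1 = h m s ∧
    (p.2 = h m (s + 1) ∨ p.2 = h m (s + 2)) with hNear
  have hNearcard : Near.card ≤ 12 * H.card := by
    have hsub : Near ⊆ (H ×ˢ ((univ : Finset (Fin 6)) ×ˢ ({1, 2} : Finset (Fin 6)))).image
        (fun y => (h y.1 y.2.1, h y.1 (y.2.1 + y.2.2))) := by
      intro p hp
      obtain ⟨_, m, hm, s, h1, h2⟩ := Finset.mem_filter.mp hp
      rw [Finset.mem_image]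
      rcases h2 with h2 | h2
      · exact ⟨(m, s, 1), by simp [hm], Prod.ext h1.symm h2.symm⟩
      · exact ⟨(m, s, 2), by simp [hm], Prod.ext h1.symm h2.symm⟩
    refine le_trans (Finset.card_le_card hsub) (le_trans Finset.card_image_le ?_)
    rw [Finset.card_product, Finset.card_product, Finset.card_univ, Fintype.card_fin]
    have : ({1, 2} : Finset (Fin 6)).card = 2 := by decide
    rw [this]
    omega
  -- the third index of a good pair
  have hex : ∀ p ∈ G, ∃ k, cnt a b c p.1 p.2 k = 2 ∧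
      ∀ m ∈ H, ∀ s : Fin 6, p.1 = h m s → p.2 = h m (s + 4) → k ≠ h m (s + 5) := by
    intro p hp
    obtain ⟨u, v, w, hw1, hw2, hw3⟩ := hG3 p hp
    obtain ⟨k, _, _, hk3, hk4⟩ := exists_third' a b c hgen hcard (hG1 p hp) hw1 hw2
    refine ⟨k, hk4, ?_⟩
    intro m hm s h1 h2 hk
    have := hw3 m hm s h1 h2
    rw [← hk] at this
    linarith
  have hne : Nonempty ι := Fintype.card_pos_iff.mp (by omega)
  choose! f hf1 hf2 using hex
  set A := (G \ Near).image fun p => (p.1, p.2, f p) with hA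
  have hAcard : A.card = (G \ Near).card := by
    rw [hA, Finset.card_image_of_injOn]
    intro p _ p' _ e
    simp only [Prod.mk.injEq] at e
    exact Prod.ext e.1 e.2.1
  have hAT : A ⊆ T := by
    intro y hy
    obtain ⟨p, hp, rfl⟩ := Finset.mem_image.mp hy
    rw [hTdef, Finset.mem_filter]
    exact ⟨Finset.mem_univ _, hf1 p (Finset.mem_sdiff.mp hp).1⟩
  have hUT : H.biUnion Tm ⊆ T := by
    intro y hy
    obtain ⟨m, hm, hy⟩ := Finset.mem_biUnion.mp hy
    exact hTmT m hm hy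
  have hdis : Disjoint A (H.biUnion Tm) := by
    rw [Finset.disjoint_left]
    intro y hy hy'
    obtain ⟨p, hp, rfl⟩ := Finset.mem_image.mp hy
    obtain ⟨m, hm, hy'⟩ := Finset.mem_biUnion.mp hy'
    obtain ⟨⟨i, j, k⟩, ht, he⟩ := Finset.mem_image.mp hy'
    obtain ⟨_, hct, _⟩ := Finset.mem_filter.mp ht
    obtain ⟨hpG, hpN⟩ := Finset.mem_sdiff.mp hp
    simp only [Prod.mk.injEq] at he
    obtain ⟨e1, e2, e3⟩ := he
    rcases cyc_cases i j k hct with hj | hj | hj | ⟨hj, hk⟩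
    · apply hpN
      rw [hNear, Finset.mem_filter]
      exact ⟨hpG, m, hm, i, e1.symm, Or.inl (by rw [← e2, hj])⟩
    · apply hpN
      rw [hNear, Finset.mem_filter]
      exact ⟨hpG, m, hm, i, e1.symm, Or.inr (by rw [← e2, hj])⟩
    · exact hG2 p hpG m hm i e1.symm (by rw [← e2, hj])
    · exact hf2 p hpG m hm i e1.symm (by rw [← e2, hj]) (by rw [← e3, hk])
  have hUcard : 18 * H.card ≤ (H.biUnion Tm).card := by
    rw [Finset.card_biUnion hTmdisj]
    calc 18 * H.card = ∑ _m ∈ H, 18 := by rw [Finset.sum_const, smul_eq_mul, mul_comm]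
      _ ≤ _ := Finset.sum_le_sum hR18
  have htot : A.card + (H.biUnion Tm).card ≤ T.card := by
    rw [← Finset.card_union_of_disjoint hdis]
    exact Finset.card_le_card (Finset.union_subset hAT hUT)
  have hGN : G.card ≤ (G \ Near).card + Near.card := by
    have := Finset.le_card_sdiff Near G
    omega
  omega

/-- The bound for good pairs and hexagonal centres. -/
theorem extra_bound [Fintype ι] [DecidableEq ι] (a b c : ι → ℝ)
    (hN : ∀ i, ∃ u v w : ℝ, ∀ q, q ≠ i → 0 < dif a b c i q u v w)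
    (hcard : 7 ≤ Fintype.card ι) (H : Finset ι) (h : ι → Fin 6 → ι)
    (hH : ∀ m ∈ H, HexData a b c m (h m))
    (hdisj : ∀ m ∈ H, ∀ m' ∈ H, m ≠ m' → ∀ i j k i' j' k' : Fin 6, i ≠ j → j ≠ k → i ≠ k →
      h m i = h m' i' → h m j = h m' j' → h m k = h m' k' → False)
    (G : Finset (ι × ι)) (hG1 : ∀ p ∈ G, p.1 ≠ p.2)
    (hG2 : ∀ p ∈ G, ∀ m ∈ H, ∀ s : Fin 6, p.1 = h m s → p.2 ≠ h m (s + 3))
    (hG3 : ∀ p ∈ G, ∃ u v w : ℝ, Wit a b c H h p u v w) :
    G.card + 6 * H.card ≤ 18 * (Fintype.card ι - 4) := by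
  have e1 : ∀ᶠ ε in 𝓝 (0 : ℝ), ∀ m ∈ H, HexData (pa a ε) (pb b ε) (pc c ε) m (h m) := by
    rw [Filter.eventually_all_finset]
    intro m hm
    have hd := hH m hm
    obtain ⟨u, v, w, ho⟩ := hd.orr_pos
    have f1 : ∀ᶠ ε in 𝓝 (0 : ℝ), ∀ i j k : Fin 6, i < j → j < k →
        0 < orr (pa a ε) (pb b ε) (pc c ε) (h m i) (h m j) (h m k) u v w := by
      simp only [Filter.eventually_all]
      intro i j k hij hjk
      exact orr_pert_pos a b c (ho i j k hij hjk)
    have f2 : ∀ᶠ ε in 𝓝 (0 : ℝ), ∀ i j k : Fin 6, i < j → j < k →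
        chi (pa a ε) (pb b ε) (pc c ε) (h m i) (h m j) (h m k) m < 0 := by
      simp only [Filter.eventually_all]
      intro i j k hij hjk
      exact chi_pert_neg a b c (hd.centre i j k hij hjk)
    have f3 : ∀ᶠ ε in 𝓝 (0 : ℝ), ∀ x, x ≠ m → (∀ s, h m s ≠ x) → ∀ i j k : Fin 6, i < j → j < k →
        0 < chi (pa a ε) (pb b ε) (pc c ε) (h m i) (h m j) (h m k) x := by
      simp only [Filter.eventually_all]
      intro x hx hxs i j k hij hjk
      exact chi_pert_pos a b c (hd.outside x hx hxs i j k hij hjk)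
    filter_upwards [f1, f2, f3] with ε g1 g2 g3
    exact ⟨hd.inj, hd.notin, ⟨u, v, w, g1⟩, g2, g3⟩
  have e2 : ∀ᶠ ε in 𝓝 (0 : ℝ), ∀ p ∈ G, ∃ u v w : ℝ,
      Wit (pa a ε) (pb b ε) (pc c ε) H h p u v w := by
    rw [Filter.eventually_all_finset]
    intro p hp
    obtain ⟨u, v, w, hw1, hw2, hw3⟩ := hG3 p hp
    filter_upwards [witness_pert_sign a b c hN (hG1 p hp) hw1] with ε hε
    obtain ⟨u', v', w', g1, g2, g3⟩ := hε
    refine ⟨u', v', w', g1, le_trans (Finset.card_le_card ?_) hw2, ?_⟩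
    · intro x hx
      simp only [Finset.mem_filter, Finset.mem_univ, true_and] at hx ⊢
      refine ⟨hx.1, hx.2.1, ?_⟩
      by_contra hcon
      push Not at hcon
      exact absurd (g2 x hcon) (not_lt.mpr hx.2.2)
    · intro m hm s h1 h2
      exact g3 _ (hw3 m hm s h1 h2)
  obtain ⟨ε, ⟨⟨h1, h2⟩, h3⟩, hinj, hgen⟩ :=
    exists_generic a b c _ (((hidden_pert a b c hN).and e1).and e2)
  exact extra_generic (pa a ε) (pb b ε) (pc c ε) hinj hgen h1 hcard H h h2 hdisj G hG1 hG2 h3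

end Pool.Agent.Helper61.SIG9
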