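import Pool.Agent.Helper67.SIG.Geo
import Pool.Agent.Helper61.SIG9.Extra

/-!
# Regular hexagons in a point set
-/

set_option autoImplicit false

open Finset Pool.Agent.Helper67.SIG

namespace Pool.Agent.Helper61.SIG9

/-- Squared distance. -/
noncomputable def sd (p q : Pl) : ℝ := (p 0 - q 0) ^ 2 + (p 1 - q 1) ^ 2

theorem sd_eq (p q : Pl) : sd p q = dist p q ^ 2 := by
  rw [EuclideanSpace.dist_eq, Real.sq_sqrt (by positivity), Fin.sum_univ_two, Real.dist_eq,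
    Real.dist_eq, sq_abs, sq_abs]
  rfl

theorem sd_comm (p q : Pl) : sd p q = sd q p := by
  unfold sd; ring

theorem sd_pos {p q : Pl} (h : p ≠ q) : 0 < sd p q := by
  rw [sd_eq]
  have := dist_pos.mpr h
  positivity

theorem ext_pl {p q : Pl} (h0 : p 0 = q 0) (h1 : p 1 = q 1) : p = q := by
  ext i
  fin_cases i
  · exact h0
  · exact h1

theorem rad_sq_le {P : Finset Pl} {p q : Pl} (hq : q ∈ P) (h : q ≠ p) :
    rad P p ^ 2 ≤ sd p q := by
  rw [sd_eq]
  have h1 := rad_le hq h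
  have h2 : 0 < rad P p := rad_pos ⟨q, hq, h⟩
  nlinarith

theorem rad_pos' {P : Finset Pl} (hP : 2 ≤ P.card) (p : Pl) : 0 < rad P p := by
  apply rad_pos
  exact Finset.exists_mem_ne (by omega) p

/-- Twice the cosine. -/
def Cz : Fin 6 → ℤ := ![2, 1, -1, -2, -1, 1]
/-- The sine divided by half the square root of three. -/
def Sz : Fin 6 → ℤ := ![0, 1, 1, 0, -1, -1]

/-- First coordinate of the rotated vector. -/
noncomputable def hx (v : Pl) (k : Fin 6) : ℝ :=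
  (Cz k : ℝ) / 2 * v 0 - (Sz k : ℝ) * (Real.sqrt 3 / 2) * v 1
/-- Second coordinate of the rotated vector. -/
noncomputable def hy (v : Pl) (k : Fin 6) : ℝ :=
  (Sz k : ℝ) * (Real.sqrt 3 / 2) * v 0 + (Cz k : ℝ) / 2 * v 1

/-- Vertices of the hexagon with centre `m`. -/
noncomputable def hp (m v : Pl) (k : Fin 6) : Pl := !₂[m 0 + hx v k, m 1 + hy v k]

theorem hp_zero (m v : Pl) (k : Fin 6) : hp m v k 0 = m 0 + hx v k := rfl
theorem hp_one (m v : Pl) (k : Fin 6) : hp m v k 1 = m 1 + hy v k := rfl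

theorem sqrt3 : Real.sqrt 3 ^ 2 = 3 := Real.sq_sqrt (by norm_num)

theorem CS (k : Fin 6) : (Cz k : ℝ) ^ 2 + 3 * (Sz k : ℝ) ^ 2 = 4 := by
  have h : ∀ k : Fin 6, Cz k ^ 2 + 3 * Sz k ^ 2 = 4 := by decide
  exact_mod_cast h k

theorem hxy_sq (v : Pl) (k : Fin 6) : hx v k ^ 2 + hy v k ^ 2 = v 0 ^ 2 + v 1 ^ 2 := by
  unfold hx hy
  linear_combination (Sz k : ℝ) ^ 2 / 4 * (v 0 ^ 2 + v 1 ^ 2) * sqrt3 +
    (v 0 ^ 2 + v 1 ^ 2) / 4 * CS k

theorem sd_hp (m v : Pl) (k : Fin 6) : sd (hp m v k) m = v 0 ^ 2 + v 1 ^ 2 := by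
  rw [← hxy_sq v k]
  unfold sd
  rw [hp_zero, hp_one]
  ring

/-- Orientation of three vertices. -/
def Kz (i j k : Fin 6) : ℤ :=
  (Cz i * Sz j - Sz i * Cz j) + (Cz j * Sz k - Sz j * Cz k) + (Cz k * Sz i - Sz k * Cz i)

theorem Kz_pos : ∀ i j k : Fin 6, i < j → j < k → 0 < Kz i j k := by decide +kernel

theorem Kz_ne : ∀ i j k : Fin 6, i ≠ j → j ≠ k → i ≠ k → Kz i j k ≠ 0 := by decide +kernel

theorem cross_eq (v : Pl) (i j k : Fin 6) :
    (hx v j - hx v i) * (hy v k - hy v i) - (hy v j - hy v i) * (hx v k - hx v i) =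
      Real.sqrt 3 / 4 * (Kz i j k : ℝ) * (v 0 ^ 2 + v 1 ^ 2) := by
  unfold hx hy Kz
  push_cast
  ring

/-- A hexagonal centre. -/
def IsHex (P : Finset Pl) (m v : Pl) : Prop :=
  m ∈ P ∧ 0 < v 0 ^ 2 + v 1 ^ 2 ∧ ∀ k, hp m v k ∈ P ∧ rad P (hp m v k) ^ 2 = v 0 ^ 2 + v 1 ^ 2

/-- The vectors of the points of `P`. -/
noncomputable def fa (P : Finset Pl) (x : P) : ℝ := ga (x : Pl)
/-- The vectors of the points of `P`. -/
noncomputable def fb (P : Finset Pl) (x : P) : ℝ := gb (x : Pl)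
/-- The vectors of the points of `P`. -/
noncomputable def fc (P : Finset Pl) (x : P) : ℝ := gc P (x : Pl)

theorem chi_hex {P : Finset Pl} {m v : Pl} (h : IsHex P m v) (i j k : Fin 6) (yi yj yk x : P)
    (hi : (yi : Pl) = hp m v i) (hj : (yj : Pl) = hp m v j) (hk : (yk : Pl) = hp m v k) :
    chi (fa P) (fb P) (fc P) yi yj yk x =
      Real.sqrt 3 * (Kz i j k : ℝ) * (v 0 ^ 2 + v 1 ^ 2) * (sd (x : Pl) m - rad P (x : Pl) ^ 2) := by
  have ei := (h.2.2 i).2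
  have ej := (h.2.2 j).2
  have ek := (h.2.2 k).2
  have si := hxy_sq v i
  have sj := hxy_sq v j
  have sk := hxy_sq v k
  have hc := cross_eq v i j k
  have ci : gc P (hp m v i) = m 0 ^ 2 + m 1 ^ 2 + 2 * (m 0 * hx v i + m 1 * hy v i) := by
    unfold gc; rw [ei, hp_zero, hp_one]; linear_combination si
  have cj : gc P (hp m v j) = m 0 ^ 2 + m 1 ^ 2 + 2 * (m 0 * hx v j + m 1 * hy v j) := by
    unfold gc; rw [ej, hp_zero, hp_one]; linear_combination sj
  have ck : gc P (hp m v k) = m 0 ^ 2 + m 1 ^ 2 + 2 * (m 0 * hx v k + m 1 * hy v k) := by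
    unfold gc; rw [ek, hp_zero, hp_one]; linear_combination sk
  unfold chi fa fb fc
  rw [hi, hj, hk, ci, cj, ck]
  unfold ga gb gc sd
  simp only [hp_zero, hp_one]
  linear_combination 4 * (((x : Pl) 0 - m 0) ^ 2 + ((x : Pl) 1 - m 1) ^ 2 -
    rad P (x : Pl) ^ 2) * hc

theorem orr_hex {P : Finset Pl} {m v : Pl} (h : IsHex P m v) (i j k : Fin 6) (yi yj yk : P)
    (hi : (yi : Pl) = hp m v i) (hj : (yj : Pl) = hp m v j) (hk : (yk : Pl) = hp m v k) :
    orr (fa P) (fb P) (fc P) yi yj yk (m 0) (m 1) 1 =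
      Real.sqrt 3 * (Kz i j k : ℝ) * (v 0 ^ 2 + v 1 ^ 2) * (m 0 ^ 2 + m 1 ^ 2 + 1) := by
  have ei := (h.2.2 i).2
  have ej := (h.2.2 j).2
  have ek := (h.2.2 k).2
  have si := hxy_sq v i
  have sj := hxy_sq v j
  have sk := hxy_sq v k
  have hc := cross_eq v i j k
  have ci : gc P (hp m v i) = m 0 ^ 2 + m 1 ^ 2 + 2 * (m 0 * hx v i + m 1 * hy v i) := by
    unfold gc; rw [ei, hp_zero, hp_one]; linear_combination si
  have cj : gc P (hp m v j) = m 0 ^ 2 + m 1 ^ 2 + 2 * (m 0 * hx v j + m 1 * hy v j) := by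
    unfold gc; rw [ej, hp_zero, hp_one]; linear_combination sj
  have ck : gc P (hp m v k) = m 0 ^ 2 + m 1 ^ 2 + 2 * (m 0 * hx v k + m 1 * hy v k) := by
    unfold gc; rw [ek, hp_zero, hp_one]; linear_combination sk
  unfold orr fa fb fc
  rw [hi, hj, hk, ci, cj, ck]
  unfold ga gb
  simp only [hp_zero, hp_one]
  linear_combination 4 * (m 0 ^ 2 + m 1 ^ 2 + 1) * hc

theorem hp_injective {m v : Pl} (h : 0 < v 0 ^ 2 + v 1 ^ 2) : Function.Injective (hp m v) := by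
  intro s t hst
  by_contra hne
  have h0 : hp m v s 0 = hp m v t 0 := by rw [hst]
  have h1 : hp m v s 1 = hp m v t 1 := by rw [hst]
  rw [hp_zero, hp_zero] at h0
  rw [hp_one, hp_one] at h1
  have key : ∀ s t : Fin 6, s ≠ t → 0 < (Cz s - Cz t) ^ 2 + 3 * (Sz s - Sz t) ^ 2 := by
    decide +kernel
  have h2 : (0 : ℝ) < ((Cz s : ℝ) - Cz t) ^ 2 + 3 * ((Sz s : ℝ) - Sz t) ^ 2 := by
    exact_mod_cast key s t hne
  have h3 : (hx v s - hx v t) ^ 2 + (hy v s - hy v t) ^ 2 =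
      (((Cz s : ℝ) - Cz t) ^ 2 + 3 * ((Sz s : ℝ) - Sz t) ^ 2) / 4 * (v 0 ^ 2 + v 1 ^ 2) := by
    unfold hx hy
    linear_combination ((Sz s : ℝ) - Sz t) ^ 2 / 4 * (v 0 ^ 2 + v 1 ^ 2) * sqrt3
  have h4 : 0 < (((Cz s : ℝ) - Cz t) ^ 2 + 3 * ((Sz s : ℝ) - Sz t) ^ 2) / 4 *
      (v 0 ^ 2 + v 1 ^ 2) := by positivity
  rw [← h3] at h4
  have h5 : hx v s - hx v t = 0 := by linarith
  have h6 : hy v s - hy v t = 0 := by linarith
  rw [h5, h6] at h4
  norm_num at h4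

theorem hp_ne {m v : Pl} (h : 0 < v 0 ^ 2 + v 1 ^ 2) (s : Fin 6) : hp m v s ≠ m := by
  intro he
  have h1 := sd_hp m v s
  rw [he] at h1
  unfold sd at h1
  have : (m 0 - m 0) ^ 2 + (m 1 - m 1) ^ 2 = 0 := by ring
  rw [this] at h1
  linarith

/-- Only the vertices of the hexagon touch the centre. -/
theorem hex_outside {P : Finset Pl} {m v : Pl} (h : IsHex P m v) {x : Pl} (hxP : x ∈ P)
    (hxm : x ≠ m) (hxs : ∀ s, hp m v s ≠ x) : rad P x ^ 2 < sd x m := by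
  by_contra hcon
  push Not at hcon
  have hW : 0 < sd x m := sd_pos hxm
  have hV := h.2.1
  set W := sd x m with hWdef
  set V := v 0 ^ 2 + v 1 ^ 2 with hVdef
  -- inner products
  have key : ∀ s : Fin 6, 2 * ((x 0 - m 0) * hx v s + (x 1 - m 1) * hy v s) ≤ W ∧
      2 * ((x 0 - m 0) * hx v s + (x 1 - m 1) * hy v s) ≤ V := by
    intro s
    obtain ⟨hs1, hs2⟩ := h.2.2 s
    have h1 := rad_sq_le (P := P) (p := x) (q := hp m v s) hs1 (hxs s)
    have h2 := rad_sq_le (P := P) (p := hp m v s) (q := x) hxP (hxs s).symm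
    rw [hs2, sd_comm] at h2
    have h3 : sd x (hp m v s) = W + V -
        2 * ((x 0 - m 0) * hx v s + (x 1 - m 1) * hy v s) := by
      rw [hWdef, hVdef, ← hxy_sq v s]
      unfold sd
      rw [hp_zero, hp_one]
      ring
    -- `rad x² ≤ sd` and `W ≤ rad x²`
    constructor
    · -- from h2 : V ≤ sd
      rw [h3] at h2
      linarith
    · rw [h3] at h1
      linarith
  have hopp : ∀ s : Fin 6, hx v (s + 3) = - hx v s ∧ hy v (s + 3) = - hy v s := by
    intro s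
    have hC : ∀ s : Fin 6, Cz (s + 3) = - Cz s ∧ Sz (s + 3) = - Sz s := by decide
    unfold hx hy
    rw [(hC s).1, (hC s).2]
    push_cast
    constructor <;> ring
  have hsq : ∀ s : Fin 6, (2 * ((x 0 - m 0) * hx v s + (x 1 - m 1) * hy v s)) ^ 2 ≤ W * V := by
    intro s
    obtain ⟨a1, a2⟩ := key s
    obtain ⟨b1, b2⟩ := key (s + 3)
    rw [(hopp s).1, (hopp s).2] at b1 b2
    set A := 2 * ((x 0 - m 0) * hx v s + (x 1 - m 1) * hy v s) with hA
    have b1' : -A ≤ W := by rw [hA]; linarith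
    have b2' : -A ≤ V := by rw [hA]; linarith
    rcases le_total 0 A with h0 | h0
    · nlinarith
    · nlinarith
  have s0 := hsq 0
  have s1 := hsq 1
  have s2 := hsq 2
  have hsum : (2 * ((x 0 - m 0) * hx v 0 + (x 1 - m 1) * hy v 0)) ^ 2 +
      (2 * ((x 0 - m 0) * hx v 1 + (x 1 - m 1) * hy v 1)) ^ 2 +
      (2 * ((x 0 - m 0) * hx v 2 + (x 1 - m 1) * hy v 2)) ^ 2 = 6 * (W * V) := by
    have e0 : Cz 0 = 2 := rfl
    have e1 : Cz 1 = 1 := rfl
    have e2 : Cz 2 = -1 := rfl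
    have g0 : Sz 0 = 0 := rfl
    have g1 : Sz 1 = 1 := rfl
    have g2 : Sz 2 = 1 := rfl
    rw [hWdef, hVdef]
    unfold sd hx hy
    rw [e0, e1, e2, g0, g1, g2]
    push_cast
    linear_combination 2 * (((x 1 - m 1) * v 0 - (x 0 - m 0) * v 1) ^ 2) * sqrt3
  have : 0 < W * V := by positivity
  linarith

theorem hex_exists {P : Finset Pl} {m v : Pl} (h : IsHex P m v) {x : Pl} (hxP : x ∈ P)
    (hxm : x ≠ m) (hle : sd x m ≤ rad P x ^ 2) : ∃ s, hp m v s = x := by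
  by_contra hcon
  push Not at hcon
  have := hex_outside h hxP hxm hcon
  linarith

theorem hp_opp (m v : Pl) (s : Fin 6) :
    hp m v (s + 3) 0 = 2 * m 0 - hp m v s 0 ∧ hp m v (s + 3) 1 = 2 * m 1 - hp m v s 1 := by
  have hC : ∀ s : Fin 6, Cz (s + 3) = - Cz s ∧ Sz (s + 3) = - Sz s := by decide
  rw [hp_zero, hp_zero, hp_one, hp_one]
  unfold hx hy
  rw [(hC s).1, (hC s).2]
  push_cast
  constructor <;> ring

/-- Two hexagonal centres with three common vertices coincide. -/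
theorem hex_disj {P : Finset Pl} {m v m' v' : Pl} (h : IsHex P m v) (h' : IsHex P m' v')
    {i j k i' j' k' : Fin 6} (hij : i ≠ j) (hjk : j ≠ k) (hik : i ≠ k)
    (e1 : hp m v i = hp m' v' i') (e2 : hp m v j = hp m' v' j') (e3 : hp m v k = hp m' v' k') :
    m = m' := by
  have hs : ∀ (s s' : Fin 6), hp m v s = hp m' v' s' → sd (hp m v s) m = sd (hp m v s) m' := by
    intro s s' e
    rw [sd_hp, e, sd_hp, ← (h'.2.2 s').2, ← e, (h.2.2 s).2]
  have d1 := hs i i' e1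
  have d2 := hs j j' e2
  have d3 := hs k k' e3
  unfold sd at d1 d2 d3
  simp only [hp_zero, hp_one] at d1 d2 d3
  have hK : (Kz i j k : ℝ) ≠ 0 := by exact_mod_cast Kz_ne i j k hij hjk hik
  have hc := cross_eq v i j k
  have h3 : (0 : ℝ) < Real.sqrt 3 := Real.sqrt_pos.mpr (by norm_num)
  have hD : (hx v j - hx v i) * (hy v k - hy v i) - (hy v j - hy v i) * (hx v k - hx v i) ≠ 0 := by
    rw [hc]
    have := h.2.1.ne'
    have h4 : Real.sqrt 3 / 4 ≠ 0 := by positivity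
    exact mul_ne_zero (mul_ne_zero h4 hK) this
  have q1 : (hx v j - hx v i) * (m 0 - m' 0) + (hy v j - hy v i) * (m 1 - m' 1) = 0 := by
    linear_combination (d1 - d2) / 2
  have q2 : (hx v k - hx v i) * (m 0 - m' 0) + (hy v k - hy v i) * (m 1 - m' 1) = 0 := by
    linear_combination (d1 - d3) / 2
  have r1 : ((hx v j - hx v i) * (hy v k - hy v i) - (hy v j - hy v i) * (hx v k - hx v i)) *
      (m 0 - m' 0) = 0 := by
    linear_combination (hy v k - hy v i) * q1 - (hy v j - hy v i) * q2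
  have r2 : ((hx v j - hx v i) * (hy v k - hy v i) - (hy v j - hy v i) * (hx v k - hx v i)) *
      (m 1 - m' 1) = 0 := by
    linear_combination (hx v j - hx v i) * q2 - (hx v k - hx v i) * q1
  have t1 := (mul_eq_zero.mp r1).resolve_left hD
  have t2 := (mul_eq_zero.mp r2).resolve_left hD
  exact ext_pl (by linarith) (by linarith)

end Pool.Agent.Helper61.SIG9
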