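import Pool.Agent.Helper67.SIG.Defs

/-!
# Lower bound for the closed sphere-of-influence graph: patches of the triangular lattice
-/

set_option autoImplicit false

open Finset Pool.Agent.Helper67.SIG

namespace Pool.Agent.Helper61.SIG9

/-- Points of the triangular lattice. -/
noncomputable def emb (s : ℤ × ℤ) : Pl := !₂[(s.1 : ℝ) + s.2 / 2, s.2 * (Real.sqrt 3 / 2)]

theorem dist_emb_sq (s t : ℤ × ℤ) :
    dist (emb s) (emb t) ^ 2 =
      (((s.1 - t.1) ^ 2 + (s.1 - t.1) * (s.2 - t.2) + (s.2 - t.2) ^ 2 : ℤ) : ℝ) := by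
  have h3 : Real.sqrt 3 ^ 2 = 3 := Real.sq_sqrt (by norm_num)
  rw [EuclideanSpace.dist_eq, Real.sq_sqrt (by positivity), Fin.sum_univ_two]
  simp only [emb, Real.dist_eq, sq_abs, PiLp.toLp_apply, Matrix.cons_val_zero,
    Matrix.cons_val_one]
  push_cast
  linear_combination ((s.2 - t.2 : ℝ) ^ 2 / 4) * h3

theorem form_pos (x y : ℤ) (h : ¬ (x = 0 ∧ y = 0)) : 1 ≤ x ^ 2 + x * y + y ^ 2 := by
  by_contra hc
  push Not at hc
  have h1 : x ^ 2 + x * y + y ^ 2 ≤ 0 := by omega
  have h2 : (2 * x + y) ^ 2 + 3 * y ^ 2 ≤ 0 := by nlinarith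
  have h3 : y = 0 := by nlinarith [sq_nonneg (2 * x + y), sq_nonneg y]
  have h4 : x = 0 := by
    subst h3
    nlinarith [sq_nonneg x]
  exact h ⟨h4, h3⟩

theorem one_le_dist {s t : ℤ × ℤ} (h : s ≠ t) : 1 ≤ dist (emb s) (emb t) := by
  have h1 := dist_emb_sq s t
  have h2 : (1 : ℤ) ≤ (s.1 - t.1) ^ 2 + (s.1 - t.1) * (s.2 - t.2) + (s.2 - t.2) ^ 2 := by
    apply form_pos
    rintro ⟨h3, h4⟩
    exact h (Prod.ext (by omega) (by omega))
  have h3 : (1 : ℝ) ≤ dist (emb s) (emb t) ^ 2 := by
    rw [h1]; exact_mod_cast h2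
  nlinarith [dist_nonneg (x := emb s) (y := emb t)]

theorem emb_injective : Function.Injective emb := by
  intro s t h
  by_contra hne
  have := one_le_dist hne
  rw [h, dist_self] at this
  linarith

theorem dist_le_two {s t : ℤ × ℤ}
    (h : (s.1 - t.1) ^ 2 + (s.1 - t.1) * (s.2 - t.2) + (s.2 - t.2) ^ 2 ≤ 4) :
    dist (emb s) (emb t) ≤ 2 := by
  have h1 := dist_emb_sq s t
  have h3 : dist (emb s) (emb t) ^ 2 ≤ 4 := by
    rw [h1]; exact_mod_cast h
  nlinarith [dist_nonneg (x := emb s) (y := emb t)]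

/-- Half of the 18 short vectors. -/
def V : Finset (ℤ × ℤ) :=
  {(1, 0), (2, 0), (0, 1), (-1, 1), (1, 1), (-2, 1), (-1, 2), (0, 2), (-2, 2)}

theorem card_V : V.card = 9 := by decide

theorem V_norm : ∀ v ∈ V, v.1 ^ 2 + v.1 * v.2 + v.2 ^ 2 ≤ 4 := by decide

theorem V_ne : ∀ v ∈ V, v ≠ 0 := by decide

theorem V_half : ∀ v ∈ V, ∀ w ∈ V, v + w ≠ 0 := by decide

theorem V_box : ∀ v ∈ V, -2 ≤ v.1 ∧ v.1 ≤ 2 ∧ 0 ≤ v.2 ∧ v.2 ≤ 2 ∧
    (v.2 = 0 → 0 ≤ v.1) ∧ (v.2 = 2 → v.1 ≤ 0) := by decide

/-- A finite set of lattice points has every radius at least one. -/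
theorem one_le_rad (S : Finset (ℤ × ℤ)) (hS : 2 ≤ S.card) (s : ℤ × ℤ) :
    1 ≤ rad (S.image emb) (emb s) := by
  unfold rad
  apply le_csInf
  · obtain ⟨t, ht, hts⟩ := Finset.exists_mem_ne (by omega : 1 < S.card) s
    refine ⟨_, emb t, ⟨?_, ?_⟩, rfl⟩
    · exact_mod_cast Finset.mem_image_of_mem emb ht
    · simp only [Set.mem_singleton_iff]
      exact fun h => hts (emb_injective h)
  · rintro _ ⟨q, ⟨hq, hqs⟩, rfl⟩
    have hq' : q ∈ S.image emb := by exact_mod_cast hq
    obtain ⟨t, _, rfl⟩ := Finset.mem_image.mp hq'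
    apply one_le_dist
    rintro rfl
    exact hqs rfl

theorem csig_finite (P : Finset Pl) : (csig P).edgeSet.Finite := by
  classical
  apply Set.Finite.subset ((P ×ˢ P).image (fun p => s(p.1, p.2))).finite_toSet
  intro e
  refine Sym2.ind (fun p q h => ?_) e
  rw [SimpleGraph.mem_edgeSet] at h
  rw [Finset.mem_coe, Finset.mem_image]
  exact ⟨(p, q), Finset.mem_product.mpr ⟨h.1, h.2.1⟩, rfl⟩

/-- Counting edges of a lattice patch. -/
theorem edges_ge (S G : Finset (ℤ × ℤ)) (hS : 2 ≤ S.card) (hG : G ⊆ S)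
    (hGV : ∀ s ∈ G, ∀ v ∈ V, s + v ∈ S) :
    9 * G.card ≤ (csig (S.image emb)).edgeSet.ncard := by
  classical
  have h1 : ((G ×ˢ V).image (fun x => s(emb x.1, emb (x.1 + x.2)))).card = 9 * G.card := by
    rw [Finset.card_image_of_injOn, Finset.card_product, card_V, mul_comm]
    rintro ⟨s, v⟩ hsv ⟨t, w⟩ htw h
    simp only [Finset.coe_product, Set.mem_prod, Finset.mem_coe] at hsv htw
    simp only [Sym2.eq_iff] at h
    rcases h with ⟨h1, h2⟩ | ⟨h1, h2⟩
    · have h1' := emb_injective h1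
      have h2' := emb_injective h2
      subst h1'
      simpa using h2'
    · exfalso
      have h1' := emb_injective h1
      have h2' := emb_injective h2
      apply V_half v hsv.2 w htw.2
      have : t + w + v = t := by rw [← h1']; exact h2'
      have h3 : t + (v + w) = t + 0 := by rw [add_zero, add_comm v w, ← add_assoc]; exact this
      exact add_left_cancel h3
  rw [← h1, ← Set.ncard_coe_finset]
  apply Set.ncard_le_ncard _ (csig_finite _)
  intro e he
  rw [Finset.mem_coe, Finset.mem_image] at he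
  obtain ⟨⟨s, v⟩, hsv, rfl⟩ := he
  rw [Finset.mem_product] at hsv
  have hsS := hG hsv.1
  have hvS := hGV s hsv.1 v hsv.2
  rw [SimpleGraph.mem_edgeSet]
  refine ⟨Finset.mem_image_of_mem _ hsS, Finset.mem_image_of_mem _ hvS, ?_, ?_⟩
  · intro h
    have := emb_injective h
    apply V_ne v hsv.2
    have h3 : s + v = s + 0 := by rw [add_zero]; exact this.symm
    exact add_left_cancel h3
  · have h2 : dist (emb s) (emb (s + v)) ≤ 2 := by
      apply dist_le_two
      have := V_norm v hsv.2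
      simp only [Prod.fst_add, Prod.snd_add]
      nlinarith
    have h3 := one_le_rad S hS s
    have h4 := one_le_rad S hS (s + v)
    show dist (emb s) (emb (s + v)) ≤ _
    linarith

/-- Position of the `i`-th point in rows of length `k`. -/
def pos (k i : ℕ) : ℤ × ℤ := (((i % k : ℕ) : ℤ), ((i / k : ℕ) : ℤ))

theorem pos_injective {k : ℕ} : Function.Injective (pos k) := by
  intro i j h
  simp only [pos, Prod.mk.injEq, Nat.cast_inj] at h
  rw [← Nat.div_add_mod i k, ← Nat.div_add_mod j k, h.1, h.2]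

theorem pos_add {k i : ℕ} (v : ℤ × ℤ) (hk : 0 < k) (h1 : 2 ≤ i % k) (h2 : i % k + 3 ≤ k)
    (hv : v ∈ V) {n : ℕ} (hi : i + 2 * k < n) : ∃ j < n, pos k j = pos k i + v := by
  obtain ⟨b1, b2, b3, b4, b5, b6⟩ := V_box v hv
  obtain ⟨x, y⟩ := v
  simp only at b1 b2 b3 b4 b5 b6
  obtain ⟨z, rfl⟩ := Int.eq_ofNat_of_zero_le b3
  obtain ⟨w, hw⟩ := Int.eq_ofNat_of_zero_le (show 0 ≤ ((i % k : ℕ) : ℤ) + x by omega)
  have hwk : w < k := by omega
  refine ⟨k * (i / k + z) + w, ?_, ?_⟩
  · have h5 := Nat.div_add_mod i k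
    have hz : z = 0 ∨ z = 1 ∨ z = 2 := by omega
    rcases hz with rfl | rfl | rfl
    · rw [add_zero]
      omega
    · rw [mul_add]
      omega
    · rw [mul_add]
      have : x ≤ 0 := b6 rfl
      omega
  · simp only [pos, Prod.mk_add_mk, Prod.mk.injEq]
    constructor
    · rw [Nat.mul_add_mod, Nat.mod_eq_of_lt hwk]
      omega
    · rw [Nat.mul_add_div hk, Nat.div_eq_of_lt hwk]
      push_cast
      ring

/-- For every `n` there are `n` points whose closed sphere-of-influence graph has at least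
`9 n - 54 √n - 108` edges. -/
theorem lower_closed (n : ℕ) : ∃ P : Finset Pl, P.card = n ∧
    9 * n ≤ (csig P).edgeSet.ncard + 54 * Nat.sqrt n + 108 := by
  classical
  set k := Nat.sqrt n with hk
  set S : Finset (ℤ × ℤ) := (range n).image (pos k) with hS
  have hScard : S.card = n := by
    rw [hS, Finset.card_image_of_injective _ pos_injective, Finset.card_range]
  refine ⟨S.image emb, by rw [Finset.card_image_of_injective _ emb_injective, hScard], ?_⟩
  rcases Nat.lt_or_ge n 2 with hn | hn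
  · omega
  have hk0 : 0 < k := Nat.sqrt_pos.mpr (by omega)
  set I := (range n).filter (fun i => 2 ≤ i % k ∧ i % k + 3 ≤ k ∧ i + 2 * k < n) with hI
  have hedge := edges_ge S (I.image (pos k)) (by omega)
    (Finset.image_subset_image (Finset.filter_subset _ _)) (by
      intro s hs v hv
      obtain ⟨i, hi, rfl⟩ := Finset.mem_image.mp hs
      obtain ⟨_, h1, h2, h3⟩ := Finset.mem_filter.mp hi
      obtain ⟨j, hj, hj2⟩ := pos_add v hk0 h1 h2 hv h3
      rw [← hj2]
      exact Finset.mem_image_of_mem _ (Finset.mem_range.mpr hj))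
  rw [Finset.card_image_of_injective _ pos_injective] at hedge
  -- the number of bad indices
  have hnk : n / k ≤ k + 2 := by
    have h1 : n < (k + 1) * (k + 1) := Nat.lt_succ_sqrt n
    have h2 : n ≤ k * (k + 2) := by nlinarith
    calc n / k ≤ (k * (k + 2)) / k := Nat.div_le_div_right h2
      _ = k + 2 := Nat.mul_div_cancel_left _ hk0
  set B1 := (range n).filter (fun i => n ≤ i + 2 * k) with hB1
  set B2 := (range n).filter (fun i => i % k < 2 ∨ k < i % k + 3) with hB2
  have hcover : (range n) ⊆ I ∪ (B1 ∪ B2) := by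
    intro i hi
    simp only [Finset.mem_union, hI, hB1, hB2, Finset.mem_filter, hi, true_and]
    omega
  have hc1 : B1.card ≤ 2 * k := by
    have : B1 ⊆ Finset.Ico (n - 2 * k) n := by
      intro i hi
      simp only [hB1, Finset.mem_filter, Finset.mem_range] at hi
      simp only [Finset.mem_Ico]
      omega
    have := Finset.card_le_card this
    rw [Nat.card_Ico] at this
    omega
  have hc2 : B2.card ≤ 4 * (k + 3) := by
    have hmap : B2.card ≤ (({0, 1, k - 1, k - 2} : Finset ℕ) ×ˢ range (k + 3)).card := by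
      apply Finset.card_le_card_of_injOn (fun i => (i % k, i / k))
      · intro i hi
        simp only [hB2, Finset.coe_filter, Finset.mem_range, Set.mem_ofPred_eq] at hi
        simp only [Finset.coe_product, Set.mem_prod, Finset.mem_coe, Finset.mem_insert,
          Finset.mem_singleton, Finset.mem_range]
        have h1 : i / k ≤ n / k := Nat.div_le_div_right hi.1.le
        have h2 : i % k < k := Nat.mod_lt _ hk0
        refine ⟨?_, by omega⟩
        rcases hi.2 with h | h <;> omega
      · intro i _ j _ h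
        simp only [Prod.mk.injEq] at h
        rw [← Nat.div_add_mod i k, ← Nat.div_add_mod j k, h.1, h.2]
    have h4 : ({0, 1, k - 1, k - 2} : Finset ℕ).card ≤ 4 := Finset.card_le_four
    rw [Finset.card_product, Finset.card_range] at hmap
    exact hmap.trans (Nat.mul_le_mul_right _ h4)
  have htot := Finset.card_le_card hcover
  rw [Finset.card_range] at htot
  have h5 := Finset.card_union_le I (B1 ∪ B2)
  have h6 := Finset.card_union_le B1 B2
  omega

end Pool.Agent.Helper61.SIG9
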