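import Pool.Agent.Helper67.SIG.Defs

/-!
# Tangent discs: the witness or a hexagon (abstract form)
-/

set_option autoImplicit false

open Finset Filter Topology Pool.Agent.Helper67.SIG

namespace Pool.Agent.Helper61.SIG9

/-- Inequalities for one point. -/
theorem quarter {a b A B r : ℝ} (ha : 0 < a) (hb : 0 < b) (h1 : A ^ 2 + B ^ 2 ≤ r)
    (p1 : r ≤ (A + a) ^ 2 + B ^ 2) (p2 : a ^ 2 ≤ (A + a) ^ 2 + B ^ 2)
    (q1 : r ≤ (A - b) ^ 2 + B ^ 2) (q2 : b ^ 2 ≤ (A - b) ^ 2 + B ^ 2) :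
    4 * A ^ 2 ≤ A ^ 2 + B ^ 2 ∧ -a ≤ 2 * A ∧ 2 * A ≤ b ∧ -(A ^ 2 + B ^ 2) ≤ 2 * a * A ∧
      2 * b * A ≤ A ^ 2 + B ^ 2 := by
  have e1 : 0 ≤ a * (2 * A + a) := by nlinarith
  have e2 : 0 ≤ b * (b - 2 * A) := by nlinarith
  have e3 : -a ≤ 2 * A := by nlinarith
  have e4 : 2 * A ≤ b := by nlinarith
  have e5 : -(A ^ 2 + B ^ 2) ≤ 2 * a * A := by nlinarith
  have e6 : 2 * b * A ≤ A ^ 2 + B ^ 2 := by nlinarith
  refine ⟨?_, e3, e4, e5, e6⟩
  rcases le_total 0 A with h | h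
  · nlinarith
  · nlinarith

/-- Two points on the same side. -/
theorem side_two {a b A B C E r1 r2 : ℝ} (ha : 0 < a) (hb : 0 < b) (hB : 0 < B) (hE : 0 < E)
    (h1 : A ^ 2 + B ^ 2 ≤ r1) (h2 : C ^ 2 + E ^ 2 ≤ r2)
    (p1 : r1 ≤ (A + a) ^ 2 + B ^ 2) (p2 : a ^ 2 ≤ (A + a) ^ 2 + B ^ 2)
    (q1 : r1 ≤ (A - b) ^ 2 + B ^ 2) (q2 : b ^ 2 ≤ (A - b) ^ 2 + B ^ 2)
    (p3 : r2 ≤ (C + a) ^ 2 + E ^ 2) (p4 : a ^ 2 ≤ (C + a) ^ 2 + E ^ 2)
    (q3 : r2 ≤ (C - b) ^ 2 + E ^ 2) (q4 : b ^ 2 ≤ (C - b) ^ 2 + E ^ 2)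
    (x1 : r1 ≤ (A - C) ^ 2 + (B - E) ^ 2) (x2 : r2 ≤ (A - C) ^ 2 + (B - E) ^ 2) :
    a = b ∧ 4 * A ^ 2 = a ^ 2 ∧ C = -A ∧ 4 * B ^ 2 = 3 * a ^ 2 ∧ 4 * E ^ 2 = 3 * a ^ 2 ∧
      r1 = a ^ 2 ∧ r2 = a ^ 2 := by
  obtain ⟨u1, u2, u3, u4, u5⟩ := quarter ha hb h1 p1 p2 q1 q2
  obtain ⟨w1, w2, w3, w4, w5⟩ := quarter ha hb h2 p3 p4 q3 q4
  have n1 : 0 < A ^ 2 + B ^ 2 := by positivity
  have n2 : 0 < C ^ 2 + E ^ 2 := by positivity
  have m1 : 2 * (A * C + B * E) ≤ A ^ 2 + B ^ 2 := by nlinarith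
  have m2 : 2 * (A * C + B * E) ≤ C ^ 2 + E ^ 2 := by nlinarith
  set N1 := A ^ 2 + B ^ 2 with hN1
  set N2 := C ^ 2 + E ^ 2 with hN2
  obtain ⟨g, hg0, hg⟩ : ∃ g : ℝ, 0 < g ∧ g ^ 2 = N1 * N2 :=
    ⟨Real.sqrt (N1 * N2), Real.sqrt_pos.mpr (mul_pos n1 n2), Real.sq_sqrt (mul_pos n1 n2).le⟩
  have hBE : 0 < B * E := mul_pos hB hE
  have s1 : 3 / 4 * g ≤ B * E := by
    apply abs_le_of_sq_le_sq' _ hBE.le |>.2
    have k1 : 3 * N1 ≤ 4 * B ^ 2 := by linarith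
    have k2 : 3 * N2 ≤ 4 * E ^ 2 := by linarith
    have : (3 * N1) * (3 * N2) ≤ (4 * B ^ 2) * (4 * E ^ 2) :=
      mul_le_mul k1 k2 (by positivity) (by positivity)
    nlinarith
  have s2 : -(g / 4) ≤ A * C := by
    apply abs_le_of_sq_le_sq' _ (by positivity : 0 ≤ g / 4) |>.1
    have : (4 * A ^ 2) * (4 * C ^ 2) ≤ N1 * N2 :=
      mul_le_mul u1 w1 (by positivity) n1.le
    nlinarith
  have g1 : g ≤ N1 := by linarith
  have g2 : g ≤ N2 := by linarith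
  have e1 : N1 = g := by
    refine le_antisymm (le_of_mul_le_mul_right (?_ : N1 * g ≤ g * g) hg0) g1
    have := mul_le_mul_of_nonneg_left g2 n1.le
    rw [← hg] at this
    linarith
  have e2 : N2 = g := by
    refine le_antisymm (le_of_mul_le_mul_left (?_ : g * N2 ≤ g * g) hg0) g2
    have := mul_le_mul_of_nonneg_right g1 n2.le
    rw [← hg] at this
    linarith
  have e3 : A * C = -(g / 4) := by linarith
  have e4 : B * E = 3 / 4 * g := by linarith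
  rw [e1] at u1
  rw [e2] at w1
  have hsum : 2 * g ≤ 4 * A ^ 2 + 4 * C ^ 2 := by
    have := sq_nonneg (A + C)
    have h9 : (A + C) ^ 2 = A ^ 2 + C ^ 2 + 2 * (A * C) := by ring
    rw [h9, e3] at this
    linarith
  have hA : 4 * A ^ 2 = g := by linarith
  have hC : 4 * C ^ 2 = g := by linarith
  have hCA : C = -A := by
    have : (A + C) ^ 2 = 0 := by
      have h9 : (A + C) ^ 2 = A ^ 2 + C ^ 2 + 2 * (A * C) := by ring
      rw [h9, e3]; linarith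
    have := pow_eq_zero_iff (two_ne_zero) |>.mp this
    linarith
  have hA0 : A ≠ 0 := by
    rintro rfl
    norm_num at hA
    linarith
  rcases lt_or_gt_of_ne hA0 with h | h
  · have hC0 : 0 < C := by linarith
    have k1 : a ≤ 2 * (-A) := by
      refine le_of_mul_le_mul_right (?_ : a * (-A) ≤ 2 * (-A) * (-A)) (by linarith : 0 < -A)
      have h9 : 2 * (-A) * (-A) = 2 * A ^ 2 := by ring
      rw [h9]; linarith
    have k2 : a = -2 * A := by linarith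
    have k3 : b ≤ 2 * C := by
      refine le_of_mul_le_mul_right (?_ : b * C ≤ 2 * C * C) hC0
      have h9 : 2 * C * C = 2 * C ^ 2 := by ring
      rw [h9]; linarith
    have k4 : b = -2 * A := by linarith
    have hga : g = a ^ 2 := by rw [← hA, k2]; ring
    refine ⟨by linarith, by rw [hA, hga], hCA, by linarith, by linarith, ?_, ?_⟩
    · apply le_antisymm
      · have : (A + a) ^ 2 + B ^ 2 = N1 := by rw [hN1, k2]; ring
        linarith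
      · linarith
    · apply le_antisymm
      · have : (C - b) ^ 2 + E ^ 2 = N2 := by rw [hN2, k4, hCA]; ring
        linarith
      · linarith
  · have hC0 : 0 < -C := by linarith
    have k1 : b ≤ 2 * A := by
      refine le_of_mul_le_mul_right (?_ : b * A ≤ 2 * A * A) h
      have h9 : 2 * A * A = 2 * A ^ 2 := by ring
      rw [h9]; linarith
    have k2 : b = 2 * A := by linarith
    have k3 : a ≤ 2 * (-C) := by
      refine le_of_mul_le_mul_right (?_ : a * (-C) ≤ 2 * (-C) * (-C)) hC0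
      have h9 : 2 * (-C) * (-C) = 2 * C ^ 2 := by ring
      rw [h9]; linarith
    have k4 : a = 2 * A := by linarith
    have hga : g = a ^ 2 := by rw [← hA, k4]; ring
    refine ⟨by linarith, by rw [hA, hga], hCA, by linarith, by linarith, ?_, ?_⟩
    · apply le_antisymm
      · have : (A - b) ^ 2 + B ^ 2 = N1 := by rw [hN1, k2]; ring
        linarith
      · linarith
    · apply le_antisymm
      · have : (C + a) ^ 2 + E ^ 2 = N2 := by rw [hN2, k4, hCA]; ring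
        linarith
      · linarith


section
variable (P : Finset Pl) (X Y R : Pl → ℝ) (p q : Pl)

open Classical in
/-- Points whose disc contains the touching point. -/
noncomputable def X0 : Finset Pl := P.filter fun x => x ≠ p ∧ x ≠ q ∧ X x ^ 2 + Y x ^ 2 ≤ R x

open Classical in
/-- Upper part. -/
noncomputable def Up : Finset Pl := (X0 P X Y R p q).filter fun x => 0 < Y x

open Classical in
/-- Middle part. -/
noncomputable def Zr : Finset Pl := (X0 P X Y R p q).filter fun x => Y x = 0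

end

/-- Reflection. -/
theorem X0_neg (P : Finset Pl) (X Y R : Pl → ℝ) (p q : Pl) :
    X0 P X (fun x => - Y x) R p q = X0 P X Y R p q := by
  unfold X0
  simp only [neg_sq]

theorem Zr_neg (P : Finset Pl) (X Y R : Pl → ℝ) (p q : Pl) :
    Zr P X (fun x => - Y x) R p q = Zr P X Y R p q := by
  unfold Zr
  rw [X0_neg]
  simp only [neg_eq_zero]

/-- The common hypotheses. -/
structure Tan (P : Finset Pl) (X Y R : Pl → ℝ) (p q : Pl) (a b : ℝ) : Prop where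
  ha : 0 < a
  hb : 0 < b
  hp : p ∈ P
  hq : q ∈ P
  Xp : X p = -a
  Yp : Y p = 0
  Xq : X q = b
  Yq : Y q = 0
  Rp : R p = a ^ 2
  Rq : R q = b ^ 2
  Rpos : ∀ x ∈ P, 0 < R x
  hR : ∀ x ∈ P, ∀ y ∈ P, x ≠ y → R x ≤ (X x - X y) ^ 2 + (Y x - Y y) ^ 2

theorem Tan.neg {P : Finset Pl} {X Y R : Pl → ℝ} {p q : Pl} {a b : ℝ}
    (h : Tan P X Y R p q a b) : Tan P X (fun x => - Y x) R p q a b where
  ha := h.ha
  hb := h.hb
  hp := h.hp
  hq := h.hq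
  Xp := h.Xp
  Yp := by show - Y p = 0; rw [h.Yp, neg_zero]
  Xq := h.Xq
  Yq := by show - Y q = 0; rw [h.Yq, neg_zero]
  Rp := h.Rp
  Rq := h.Rq
  Rpos := h.Rpos
  hR := by
    intro x hx y hy hxy
    have := h.hR x hx y hy hxy
    have h2 : (-Y x - -Y y) ^ 2 = (Y x - Y y) ^ 2 := by ring
    show _ ≤ _ + (-Y x - -Y y) ^ 2
    rw [h2]; exact this

theorem mem_X0 {P : Finset Pl} {X Y R : Pl → ℝ} {p q x : Pl} :
    x ∈ X0 P X Y R p q ↔ x ∈ P ∧ x ≠ p ∧ x ≠ q ∧ X x ^ 2 + Y x ^ 2 ≤ R x := by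
  unfold X0; rw [Finset.mem_filter]

theorem mem_Up {P : Finset Pl} {X Y R : Pl → ℝ} {p q x : Pl} :
    x ∈ Up P X Y R p q ↔ x ∈ X0 P X Y R p q ∧ 0 < Y x := by
  unfold Up; rw [Finset.mem_filter]

theorem mem_Zr {P : Finset Pl} {X Y R : Pl → ℝ} {p q x : Pl} :
    x ∈ Zr P X Y R p q ↔ x ∈ X0 P X Y R p q ∧ Y x = 0 := by
  unfold Zr; rw [Finset.mem_filter]

/-- The inequalities at `p` and `q`. -/
theorem Tan.ineqs {P : Finset Pl} {X Y R : Pl → ℝ} {p q : Pl} {a b : ℝ}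
    (h : Tan P X Y R p q a b) {x : Pl} (hx : x ∈ X0 P X Y R p q) :
    X x ^ 2 + Y x ^ 2 ≤ R x ∧ R x ≤ (X x + a) ^ 2 + Y x ^ 2 ∧
    a ^ 2 ≤ (X x + a) ^ 2 + Y x ^ 2 ∧ R x ≤ (X x - b) ^ 2 + Y x ^ 2 ∧
    b ^ 2 ≤ (X x - b) ^ 2 + Y x ^ 2 := by
  obtain ⟨hxP, hxp, hxq, h0⟩ := mem_X0.mp hx
  have h1 := h.hR x hxP p h.hp hxp
  have h2 := h.hR p h.hp x hxP hxp.symm
  have h3 := h.hR x hxP q h.hq hxq
  have h4 := h.hR q h.hq x hxP hxq.symm
  rw [h.Xp, h.Yp] at h1 h2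
  rw [h.Xq, h.Yq] at h3 h4
  rw [h.Rp] at h2
  rw [h.Rq] at h4
  refine ⟨h0, ?_, ?_, ?_, ?_⟩
  · linarith
  · linarith
  · linarith
  · linarith

theorem Tan.side {P : Finset Pl} {X Y R : Pl → ℝ} {p q : Pl} {a b : ℝ}
    (h : Tan P X Y R p q a b) {x y : Pl} (hx : x ∈ Up P X Y R p q) (hy : y ∈ Up P X Y R p q)
    (hxy : x ≠ y) :
    a = b ∧ 4 * X x ^ 2 = a ^ 2 ∧ X y = - X x ∧ 4 * Y x ^ 2 = 3 * a ^ 2 ∧
      4 * Y y ^ 2 = 3 * a ^ 2 ∧ R x = a ^ 2 ∧ R y = a ^ 2 := by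
  obtain ⟨hx1, hx2⟩ := mem_Up.mp hx
  obtain ⟨hy1, hy2⟩ := mem_Up.mp hy
  obtain ⟨i1, i2, i3, i4, i5⟩ := h.ineqs hx1
  obtain ⟨j1, j2, j3, j4, j5⟩ := h.ineqs hy1
  have hxP := (mem_X0.mp hx1).1
  have hyP := (mem_X0.mp hy1).1
  have k1 := h.hR x hxP y hyP hxy
  have k2 := h.hR y hyP x hxP hxy.symm
  exact side_two h.ha h.hb hx2 hy2 i1 j1 i2 i3 i4 i5 j2 j3 j4 j5 k1 (by linarith)

theorem Tan.card_Up {P : Finset Pl} {X Y R : Pl → ℝ} {p q : Pl} {a b : ℝ}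
    (h : Tan P X Y R p q a b) : (Up P X Y R p q).card ≤ 2 := by
  by_contra hcon
  push Not at hcon
  obtain ⟨x, hx, y, hy, z, hz, hxy, hxz, hyz⟩ := Finset.two_lt_card.mp hcon
  have h1 := h.side hx hy hxy
  have h2 := h.side hx hz hxz
  have h3 := h.side hy hz hyz
  have e : X x = 0 := by
    have a1 := h1.2.2.1
    have a2 := h2.2.2.1
    have a3 := h3.2.2.1
    linarith
  have := h1.2.1
  rw [e] at this
  have := h.ha
  nlinarith

theorem Tan.X_Zr {P : Finset Pl} {X Y R : Pl → ℝ} {p q : Pl} {a b : ℝ}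
    (h : Tan P X Y R p q a b) {x : Pl} (hx : x ∈ Zr P X Y R p q) : X x = 0 := by
  obtain ⟨hx1, hx2⟩ := mem_Zr.mp hx
  obtain ⟨i1, i2, i3, i4, i5⟩ := h.ineqs hx1
  obtain ⟨u1, _⟩ := quarter h.ha h.hb i1 i2 i3 i4 i5
  rw [hx2] at u1
  nlinarith

theorem Tan.card_Zr {P : Finset Pl} {X Y R : Pl → ℝ} {p q : Pl} {a b : ℝ}
    (h : Tan P X Y R p q a b) : (Zr P X Y R p q).card ≤ 1 := by
  rw [Finset.card_le_one]
  intro x hx y hy
  by_contra hne
  have hxP := (mem_X0.mp (mem_Zr.mp hx).1).1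
  have hyP := (mem_X0.mp (mem_Zr.mp hy).1).1
  have h1 := h.hR x hxP y hyP hne
  rw [h.X_Zr hx, h.X_Zr hy, (mem_Zr.mp hx).2, (mem_Zr.mp hy).2] at h1
  have := h.Rpos x hxP
  norm_num at h1
  linarith

/-- The lower part with slack. -/
theorem Tan.low_tied {P : Finset Pl} {X Y R : Pl → ℝ} {p q : Pl} {a b : ℝ}
    (h : Tan P X Y R p q a b) {x y : Pl} (hx : x ∈ Up P X Y R p q) (hy : y ∈ Up P X Y R p q)
    (hxy : x ≠ y) : X x ^ 2 + Y x ^ 2 = R x := by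
  obtain ⟨_, h1, _, h2, _, h3, _⟩ := h.side hx hy hxy
  linarith

/-- A small `δ`. -/
theorem exists_delta (P : Finset Pl) (X Y R : Pl → ℝ) : ∃ δ : ℝ, 0 < δ ∧
    ∀ ε : ℝ, |ε| ≤ δ → ∀ x ∈ P, 0 < X x ^ 2 + Y x ^ 2 - R x →
      2 * ε * Y x < X x ^ 2 + Y x ^ 2 - R x := by
  have h : ∀ᶠ ε in 𝓝 (0 : ℝ), ∀ x ∈ P, 0 < X x ^ 2 + Y x ^ 2 - R x →
      2 * ε * Y x < X x ^ 2 + Y x ^ 2 - R x := by
    rw [Filter.eventually_all_finset]
    intro x _
    by_cases hx : 0 < X x ^ 2 + Y x ^ 2 - R x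
    · have hc : Continuous fun ε : ℝ => 2 * ε * Y x := by fun_prop
      have h0 : 2 * (0 : ℝ) * Y x < X x ^ 2 + Y x ^ 2 - R x := by simpa using hx
      filter_upwards [hc.continuousAt.eventually (gt_mem_nhds h0)] with ε h _ using h
    · exact Filter.Eventually.of_forall fun ε h => absurd h hx
  obtain ⟨δ, hδ, hball⟩ := Metric.eventually_nhds_iff.mp h
  refine ⟨δ / 2, by positivity, fun ε hε => hball ?_⟩
  rw [Real.dist_eq, sub_zero]
  linarith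

open Classical in
/-- For a small positive shift only the upper part, the middle and the strict lower part stay. -/
theorem shift_sub (P : Finset Pl) (X Y R : Pl → ℝ) (p q : Pl) {δ ε : ℝ} (hε : 0 < ε)
    (hεδ : |ε| ≤ δ)
    (hδ : ∀ ε : ℝ, |ε| ≤ δ → ∀ x ∈ P, 0 < X x ^ 2 + Y x ^ 2 - R x →
      2 * ε * Y x < X x ^ 2 + Y x ^ 2 - R x) :
    (P.filter fun x => x ≠ p ∧ x ≠ q ∧ X x ^ 2 + Y x ^ 2 - R x ≤ 2 * ε * Y x) ⊆
      Zr P X Y R p q ∪ (Up P X Y R p q ∪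
        (Up P X (fun x => - Y x) R p q).filter fun x => X x ^ 2 + Y x ^ 2 ≠ R x) := by
  intro x hx
  obtain ⟨hxP, hxp, hxq, hle⟩ := Finset.mem_filter.mp hx
  have h0 : X x ^ 2 + Y x ^ 2 ≤ R x := by
    by_contra hcon
    push Not at hcon
    have := hδ ε hεδ x hxP (by linarith)
    linarith
  have hx0 : x ∈ X0 P X Y R p q := mem_X0.mpr ⟨hxP, hxp, hxq, h0⟩
  rw [Finset.mem_union, Finset.mem_union]
  rcases lt_trichotomy (Y x) 0 with hy | hy | hy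
  · right; right
    rw [Finset.mem_filter, mem_Up, X0_neg]
    refine ⟨⟨hx0, by linarith⟩, ?_⟩
    intro he
    rw [he] at hle
    have : 2 * ε * Y x < 0 := by
      have := mul_pos hε (neg_pos.mpr hy)
      linarith
    linarith
  · left
    exact mem_Zr.mpr ⟨hx0, hy⟩
  · right; left
    exact mem_Up.mpr ⟨hx0, hy⟩

open Classical in
/-- Number of points that stay after a small positive shift. -/
theorem shift_card (P : Finset Pl) (X Y R : Pl → ℝ) (p q : Pl) : ∃ ε : ℝ,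
    (P.filter fun x => x ≠ p ∧ x ≠ q ∧ X x ^ 2 + Y x ^ 2 - R x ≤ 2 * ε * Y x).card ≤
      (Zr P X Y R p q).card + ((Up P X Y R p q).card +
        ((Up P X (fun x => - Y x) R p q).filter fun x => X x ^ 2 + Y x ^ 2 ≠ R x).card) := by
  obtain ⟨δ, hδ0, hδ⟩ := exists_delta P X Y R
  refine ⟨δ, le_trans (Finset.card_le_card (shift_sub P X Y R p q hδ0
    (by rw [abs_of_pos hδ0]) hδ)) ?_⟩
  refine le_trans (Finset.card_union_le _ _) (Nat.add_le_add_left ?_ _)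
  exact Finset.card_union_le _ _

open Classical in
/-- If the lower part has two elements, its strict part is empty; in general the strict part has at
most one element. -/
theorem Tan.strict_card {P : Finset Pl} {X Y R : Pl → ℝ} {p q : Pl} {a b : ℝ}
    (h : Tan P X Y R p q a b) :
    ((Up P X Y R p q).filter fun x => X x ^ 2 + Y x ^ 2 ≠ R x).card ≤ 1 ∧
    (2 ≤ (Up P X Y R p q).card →
      ((Up P X Y R p q).filter fun x => X x ^ 2 + Y x ^ 2 ≠ R x).card = 0) ∧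
    ((Zr P X Y R p q).Nonempty →
      ((Up P X Y R p q).filter fun x => X x ^ 2 + Y x ^ 2 ≠ R x).card = 0) := by
  have hkey : ∀ x ∈ (Up P X Y R p q).filter (fun x => X x ^ 2 + Y x ^ 2 ≠ R x),
      ∀ y ∈ Up P X Y R p q, x = y := by
    intro x hx y hy
    by_contra hne
    obtain ⟨hx1, hx2⟩ := Finset.mem_filter.mp hx
    exact hx2 (h.low_tied hx1 hy hne)
  refine ⟨?_, ?_, ?_⟩
  · rw [Finset.card_le_one]
    intro x hx y hy
    exact hkey x hx y (Finset.mem_filter.mp hy).1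
  · intro h2
    rw [Finset.card_eq_zero, Finset.eq_empty_iff_forall_notMem]
    intro x hx
    obtain ⟨y, hy, hyx⟩ := Finset.exists_mem_ne (by omega : 1 < (Up P X Y R p q).card) x
    exact hyx (hkey x hx y hy).symm
  · rintro ⟨m, hm⟩
    rw [Finset.card_eq_zero, Finset.eq_empty_iff_forall_notMem]
    intro x hx
    obtain ⟨hx1, hx2⟩ := Finset.mem_filter.mp hx
    apply hx2
    have hx0 := (mem_Up.mp hx1).1
    have hxP := mem_X0.mp hx0
    have hmP := mem_X0.mp (mem_Zr.mp hm).1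
    have hne : x ≠ m := by
      rintro rfl
      have h1 := (mem_Up.mp hx1).2
      have h2 := (mem_Zr.mp hm).2
      linarith
    have h1 := h.hR x hxP.1 m hmP.1 hne
    rw [h.X_Zr hm, (mem_Zr.mp hm).2, sub_zero, sub_zero] at h1
    exact le_antisymm hxP.2.2.2 h1

/-- Two elements of the upper part give the two vertices. -/
theorem Tan.vertices {P : Finset Pl} {X Y R : Pl → ℝ} {p q : Pl} {a b : ℝ}
    (h : Tan P X Y R p q a b) (h2 : 2 ≤ (Up P X Y R p q).card) :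
    a = b ∧ (∃ x ∈ P, 2 * X x = a ∧ Y x = Real.sqrt 3 / 2 * a ∧ R x = a ^ 2) ∧
      (∃ x ∈ P, 2 * X x = -a ∧ Y x = Real.sqrt 3 / 2 * a ∧ R x = a ^ 2) := by
  obtain ⟨x, hx, y, hy, hxy⟩ := Finset.one_lt_card.mp (by omega : 1 < (Up P X Y R p q).card)
  obtain ⟨e1, e2, e3, e4, e5, e6, e7⟩ := h.side hx hy hxy
  have hxP := (mem_X0.mp (mem_Up.mp hx).1).1
  have hyP := (mem_X0.mp (mem_Up.mp hy).1).1
  have hY : ∀ t : ℝ, 0 < t → 4 * t ^ 2 = 3 * a ^ 2 → t = Real.sqrt 3 / 2 * a := by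
    intro t ht h4
    have h3 : Real.sqrt 3 ^ 2 = 3 := Real.sq_sqrt (by norm_num)
    have hs : 0 < Real.sqrt 3 / 2 * a := mul_pos (by positivity) h.ha
    have : t ^ 2 = (Real.sqrt 3 / 2 * a) ^ 2 := by
      rw [mul_pow, div_pow, h3]; linarith
    exact (sq_eq_sq₀ ht.le hs.le).mp this
  have hYx := hY _ (mem_Up.mp hx).2 e4
  have hYy := hY _ (mem_Up.mp hy).2 e5
  have ha := h.ha
  have hX : (2 * X x - a) * (2 * X x + a) = 0 := by
    have : (2 * X x - a) * (2 * X x + a) = 4 * X x ^ 2 - a ^ 2 := by ring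
    rw [this, e2, sub_self]
  refine ⟨e1, ?_⟩
  rcases mul_eq_zero.mp hX with hX | hX
  · exact ⟨⟨x, hxP, by linarith, hYx, e6⟩, ⟨y, hyP, by linarith, hYy, e7⟩⟩
  · exact ⟨⟨y, hyP, by linarith, hYy, e7⟩, ⟨x, hxP, by linarith, hYx, e6⟩⟩

open Classical in
/-- The dichotomy for tangent discs. -/
theorem Tan.dichotomy {P : Finset Pl} {X Y R : Pl → ℝ} {p q : Pl} {a b : ℝ}
    (h : Tan P X Y R p q a b) :
    (∃ ε : ℝ, (P.filter fun x => x ≠ p ∧ x ≠ q ∧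
      X x ^ 2 + Y x ^ 2 - R x ≤ 2 * ε * Y x).card ≤ 2) ∨
    (a = b ∧ (∃ m ∈ P, X m = 0 ∧ Y m = 0) ∧
      (∃ x ∈ P, 2 * X x = a ∧ Y x = Real.sqrt 3 / 2 * a ∧ R x = a ^ 2) ∧
      (∃ x ∈ P, 2 * X x = -a ∧ Y x = Real.sqrt 3 / 2 * a ∧ R x = a ^ 2) ∧
      (∃ x ∈ P, 2 * X x = a ∧ - Y x = Real.sqrt 3 / 2 * a ∧ R x = a ^ 2) ∧
      (∃ x ∈ P, 2 * X x = -a ∧ - Y x = Real.sqrt 3 / 2 * a ∧ R x = a ^ 2)) := by
  have hn := h.neg
  obtain ⟨ε1, hs1⟩ := shift_card P X Y R p q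
  obtain ⟨ε2, hs2⟩ := shift_card P X (fun x => - Y x) R p q
  have hU := h.card_Up
  have hD := hn.card_Up
  have hZ := h.card_Zr
  obtain ⟨a1, a2, a3⟩ := h.strict_card
  obtain ⟨b1, b2, b3⟩ := hn.strict_card
  rw [Zr_neg] at b3 hs2
  simp only [neg_neg, neg_sq] at hs2 b1 b2 b3
  eta_reduce at hs2
  have hneg : ∀ ε : ℝ, (P.filter fun x => x ≠ p ∧ x ≠ q ∧
      X x ^ 2 + Y x ^ 2 - R x ≤ 2 * ε * - Y x) = (P.filter fun x => x ≠ p ∧ x ≠ q ∧
      X x ^ 2 + Y x ^ 2 - R x ≤ 2 * (-ε) * Y x) := by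
    intro ε
    apply Finset.filter_congr
    intro x _
    have : 2 * ε * - Y x = 2 * (-ε) * Y x := by ring
    rw [this]
  rw [hneg] at hs2
  by_cases hZ0 : (Zr P X Y R p q).Nonempty
  · have a4 := a3 hZ0
    have b4 := b3 hZ0
    by_cases hU1 : (Up P X Y R p q).card ≤ 1
    · left
      exact ⟨ε1, by omega⟩
    by_cases hD1 : (Up P X (fun x => - Y x) R p q).card ≤ 1
    · left
      exact ⟨-ε2, by omega⟩
    right
    obtain ⟨m, hm⟩ := hZ0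
    obtain ⟨v1, v2, v3⟩ := h.vertices (by omega)
    obtain ⟨_, w2, w3⟩ := hn.vertices (by omega)
    exact ⟨v1, ⟨m, (mem_X0.mp (mem_Zr.mp hm).1).1, h.X_Zr hm, (mem_Zr.mp hm).2⟩, v2, v3, w2, w3⟩
  · have hZ1 : (Zr P X Y R p q).card = 0 := by
      rw [Finset.card_eq_zero]; exact Finset.not_nonempty_iff_eq_empty.mp hZ0
    left
    by_cases hD2 : 2 ≤ (Up P X (fun x => - Y x) R p q).card
    · have := b2 hD2
      exact ⟨ε1, by omega⟩
    · exact ⟨-ε2, by omega⟩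

end Pool.Agent.Helper61.SIG9
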