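import Pool.Agent.Helper67.SIG.Main
import Pool.Agent.Helper61.SIG9.HexGeo
import Pool.Agent.Helper61.SIG9.Tangent
import Pool.Agent.Helper61.SIG9.Lattice

/-!
# The closed sphere-of-influence graph has at most `9 n - 36` edges
-/

set_option autoImplicit false

open Finset Pool.Agent.Helper67.SIG

namespace Pool.Agent.Helper61.SIG9

/-- The linear form of `x` minus that of `p` at `(u, v, 1)`. -/
noncomputable def EE (P : Finset Pl) (p x : Pl) (u v : ℝ) : ℝ :=
  (ga x - ga p) * u + (gb x - gb p) * v + (gc P x - gc P p) * 1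

theorem EE_eq (P : Finset Pl) (p x : Pl) (u v : ℝ) :
    EE P p x u v = ((u - x 0) ^ 2 + (v - x 1) ^ 2 - rad P x ^ 2) -
      ((u - p 0) ^ 2 + (v - p 1) ^ 2 - rad P p ^ 2) := by
  unfold EE ga gb gc; ring

open Classical in
/-- Tangent discs: a witness or a hexagon. -/
theorem tangent_witness (P : Finset Pl) {p q : Pl} (hpP : p ∈ P) (hqP : q ∈ P)
    (hne : p ≠ q) (h : dist p q = rad P p + rad P q) :
    (∃ u v : ℝ, EE P p q u v = 0 ∧
      (P.filter fun x => x ≠ p ∧ x ≠ q ∧ EE P p x u v ≤ 0).card ≤ 2) ∨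
    (∃ m v : Pl, IsHex P m v ∧ p = hp m v 0 ∧ q = hp m v 3) := by
  have hP : 2 ≤ P.card := Finset.one_lt_card.mpr ⟨p, hpP, q, hqP, hne⟩
  set D := dist p q with hD
  set a := rad P p with haD
  set b := rad P q with hbD
  have hD0 : 0 < D := dist_pos.mpr hne
  have ha : 0 < a := rad_pos' hP p
  have hb : 0 < b := rad_pos' hP q
  set e0 := (q 0 - p 0) / D with he0
  set e1 := (q 1 - p 1) / D with he1
  have hq0 : q 0 = p 0 + D * e0 := by rw [he0]; field_simp; ring
  have hq1 : q 1 = p 1 + D * e1 := by rw [he1]; field_simp; ring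
  have hunit : e0 ^ 2 + e1 ^ 2 = 1 := by
    have h1 : sd p q = D ^ 2 := sd_eq p q
    have h2 : sd p q = D ^ 2 * (e0 ^ 2 + e1 ^ 2) := by
      unfold sd; rw [hq0, hq1]; ring
    have h3 : D ^ 2 * (e0 ^ 2 + e1 ^ 2) = D ^ 2 * 1 := by rw [← h2, h1, mul_one]
    exact mul_left_cancel₀ (by positivity) h3
  set o0 := p 0 + a * e0 with ho0
  set o1 := p 1 + a * e1 with ho1
  let X : Pl → ℝ := fun x => (x 0 - o0) * e0 + (x 1 - o1) * e1
  let Y : Pl → ℝ := fun x => -((x 0 - o0) * e1) + (x 1 - o1) * e0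
  let R : Pl → ℝ := fun x => rad P x ^ 2
  have hXY : ∀ x y, (X x - X y) ^ 2 + (Y x - Y y) ^ 2 = sd x y := by
    intro x y
    show (((x 0 - o0) * e0 + (x 1 - o1) * e1) - ((y 0 - o0) * e0 + (y 1 - o1) * e1)) ^ 2 +
      ((-((x 0 - o0) * e1) + (x 1 - o1) * e0) - (-((y 0 - o0) * e1) + (y 1 - o1) * e0)) ^ 2 = _
    unfold sd
    linear_combination ((x 0 - y 0) ^ 2 + (x 1 - y 1) ^ 2) * hunit
  have hXp : X p = -a := by
    show (p 0 - o0) * e0 + (p 1 - o1) * e1 = -a
    rw [ho0, ho1]; linear_combination (-a) * hunit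
  have hYp : Y p = 0 := by
    show -((p 0 - o0) * e1) + (p 1 - o1) * e0 = 0
    rw [ho0, ho1]; ring
  have hXq : X q = b := by
    show (q 0 - o0) * e0 + (q 1 - o1) * e1 = b
    rw [ho0, ho1, hq0, hq1]
    linear_combination (D - a) * hunit + h
  have hYq : Y q = 0 := by
    show -((q 0 - o0) * e1) + (q 1 - o1) * e0 = 0
    rw [ho0, ho1, hq0, hq1]; ring
  have hT : Tan P X Y R p q a b :=
    { ha := ha, hb := hb, hp := hpP, hq := hqP, Xp := hXp, Yp := hYp, Xq := hXq, Yq := hYq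
      Rp := rfl
      Rq := rfl
      Rpos := fun x _ => by
        have := rad_pos' hP x
        show 0 < rad P x ^ 2
        positivity
      hR := fun x hx y hy hxy => by
        rw [hXY]
        exact rad_sq_le hy hxy.symm }
  have hfr : ∀ x y, X x = X y → Y x = Y y → x = y := by
    intro x y h1 h2
    by_contra hxy
    have h3 := sd_pos hxy
    rw [← hXY, h1, h2] at h3
    norm_num at h3
  rcases hT.dichotomy with ⟨ε, hε⟩ | ⟨hab, ⟨m, hm, hXm, hYm⟩, ⟨x4, h4P, h4X, h4Y, h4R⟩,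
    ⟨x5, h5P, h5X, h5Y, h5R⟩, ⟨x2, h2P, h2X, h2Y, h2R⟩, ⟨x1, h1P, h1X, h1Y, h1R⟩⟩
  · left
    have hE : ∀ x, EE P p x (o0 - ε * e1) (o1 + ε * e0) =
        X x ^ 2 + Y x ^ 2 - R x - 2 * ε * Y x := by
      intro x
      rw [EE_eq]
      show (o0 - ε * e1 - x 0) ^ 2 + (o1 + ε * e0 - x 1) ^ 2 - rad P x ^ 2 -
        ((o0 - ε * e1 - p 0) ^ 2 + (o1 + ε * e0 - p 1) ^ 2 - a ^ 2) =
        ((x 0 - o0) * e0 + (x 1 - o1) * e1) ^ 2 +
        (-((x 0 - o0) * e1) + (x 1 - o1) * e0) ^ 2 - rad P x ^ 2 -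
        2 * ε * (-((x 0 - o0) * e1) + (x 1 - o1) * e0)
      have hop : (o0 - ε * e1 - p 0) ^ 2 + (o1 + ε * e0 - p 1) ^ 2 - a ^ 2 =
          ε ^ 2 * (e0 ^ 2 + e1 ^ 2) + a ^ 2 * (e0 ^ 2 + e1 ^ 2 - 1) := by
        rw [ho0, ho1]; ring
      rw [hop]
      linear_combination (ε ^ 2 - ((x 0 - o0) ^ 2 + (x 1 - o1) ^ 2) - ε ^ 2 - a ^ 2) * hunit
    refine ⟨o0 - ε * e1, o1 + ε * e0, ?_, ?_⟩
    · rw [hE, hXq, hYq]
      show b ^ 2 + 0 ^ 2 - b ^ 2 - 2 * ε * 0 = 0
      ring
    · refine le_trans (Finset.card_le_card ?_) hε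
      intro x hx
      rw [Finset.mem_filter] at hx ⊢
      refine ⟨hx.1, hx.2.1, hx.2.2.1, ?_⟩
      have := hx.2.2.2
      rw [hE] at this
      linarith
  · right
    set v : Pl := !₂[p 0 - m 0, p 1 - m 1] with hv
    have hv0 : v 0 = p 0 - m 0 := rfl
    have hv1 : v 1 = p 1 - m 1 := rfl
    -- `m` is the touching point
    have hXm' : (m 0 - o0) * e0 + (m 1 - o1) * e1 = 0 := hXm
    have hYm' : -((m 0 - o0) * e1) + (m 1 - o1) * e0 = 0 := hYm
    have hm0 : m 0 = o0 := by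
      have : (m 0 - o0) * 1 = 0 := by
        rw [← hunit]
        linear_combination e0 * hXm' - e1 * hYm'
      linarith
    have hm1 : m 1 = o1 := by
      have : (m 1 - o1) * 1 = 0 := by
        rw [← hunit]
        linear_combination e1 * hXm' + e0 * hYm'
      linarith
    have w0 : v 0 = -(a * e0) := by rw [hv0, hm0, ho0]; ring
    have w1 : v 1 = -(a * e1) := by rw [hv1, hm1, ho1]; ring
    have hV : v 0 ^ 2 + v 1 ^ 2 = a ^ 2 := by
      rw [w0, w1]; linear_combination a ^ 2 * hunit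
    have hXk : ∀ k, X (hp m v k) = -(a * ((Cz k : ℝ) / 2)) := by
      intro k
      show (hp m v k 0 - o0) * e0 + (hp m v k 1 - o1) * e1 = _
      rw [hp_zero, hp_one, hm0, hm1]
      unfold hx hy
      rw [w0, w1]
      linear_combination (-(a * ((Cz k : ℝ) / 2))) * hunit
    have hYk : ∀ k, Y (hp m v k) = -((Sz k : ℝ) * (Real.sqrt 3 / 2) * a) := by
      intro k
      show -((hp m v k 0 - o0) * e1) + (hp m v k 1 - o1) * e0 = _
      rw [hp_zero, hp_one, hm0, hm1]
      unfold hx hy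
      rw [w0, w1]
      linear_combination (-((Sz k : ℝ) * (Real.sqrt 3 / 2) * a)) * hunit
    have k0 : hp m v 0 = p := by
      apply hfr
      · rw [hXk, hXp]; have : Cz 0 = 2 := rfl
        rw [this]; push_cast; ring
      · rw [hYk, hYp]; have : Sz 0 = 0 := rfl
        rw [this]; push_cast; ring
    have k3 : hp m v 3 = q := by
      apply hfr
      · rw [hXk, hXq]; have : Cz 3 = -2 := rfl
        rw [this, ← hab]; push_cast; ring
      · rw [hYk, hYq]; have : Sz 3 = 0 := rfl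
        rw [this]; push_cast; ring
    have k1 : hp m v 1 = x1 := by
      apply hfr
      · rw [hXk]; have : Cz 1 = 1 := rfl
        rw [this]; push_cast; linarith
      · rw [hYk]; have : Sz 1 = 1 := rfl
        rw [this]; push_cast; linarith
    have k2 : hp m v 2 = x2 := by
      apply hfr
      · rw [hXk]; have : Cz 2 = -1 := rfl
        rw [this]; push_cast; linarith
      · rw [hYk]; have : Sz 2 = 1 := rfl
        rw [this]; push_cast; linarith
    have k4 : hp m v 4 = x4 := by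
      apply hfr
      · rw [hXk]; have : Cz 4 = -1 := rfl
        rw [this]; push_cast; linarith
      · rw [hYk]; have : Sz 4 = -1 := rfl
        rw [this]; push_cast; linarith
    have k5 : hp m v 5 = x5 := by
      apply hfr
      · rw [hXk]; have : Cz 5 = 1 := rfl
        rw [this]; push_cast; linarith
      · rw [hYk]; have : Sz 5 = -1 := rfl
        rw [this]; push_cast; linarith
    refine ⟨m, v, ⟨hm, by rw [hV]; positivity, ?_⟩, k0.symm, k3.symm⟩
    intro k
    rw [hV]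
    fin_cases k
    · exact ⟨by rw [show hp m v ((fun i => i) ⟨0, _⟩) = p from k0]; exact hpP,
        by rw [show hp m v ((fun i => i) ⟨0, _⟩) = p from k0]⟩
    · exact ⟨by rw [show hp m v ((fun i => i) ⟨1, _⟩) = x1 from k1]; exact h1P,
        by rw [show hp m v ((fun i => i) ⟨1, _⟩) = x1 from k1]; exact h1R⟩
    · exact ⟨by rw [show hp m v ((fun i => i) ⟨2, _⟩) = x2 from k2]; exact h2P,
        by rw [show hp m v ((fun i => i) ⟨2, _⟩) = x2 from k2]; exact h2R⟩
    · exact ⟨by rw [show hp m v ((fun i => i) ⟨3, _⟩) = q from k3]; exact hqP,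
        by rw [show hp m v ((fun i => i) ⟨3, _⟩) = q from k3, hab]⟩
    · exact ⟨by rw [show hp m v ((fun i => i) ⟨4, _⟩) = x4 from k4]; exact h4P,
        by rw [show hp m v ((fun i => i) ⟨4, _⟩) = x4 from k4]; exact h4R⟩
    · exact ⟨by rw [show hp m v ((fun i => i) ⟨5, _⟩) = x5 from k5]; exact h5P,
        by rw [show hp m v ((fun i => i) ⟨5, _⟩) = x5 from k5]; exact h5R⟩

end Pool.Agent.Helper61.SIG9
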