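import Pool.Agent.Helper67.SIG.Core

/-!
# Six heights over a convex hexagon: at least six triples have exactly one index below

Sign vectors of the fifteen `4`-subsets of a `6`-set with at most one sign change on every
`5`-subset; a finite check.
-/

set_option autoImplicit false

open Finset Pool.Agent.Helper67.SIG

namespace Pool.Agent.Helper61.SIG9

/-- No isolated middle sign. -/
def cnd (x y z : Bool) : Bool := (x == y) || (y == z)

/-- The table of signs. -/
def tab (b0123 b0124 b0125 b0134 b0135 b0145 b0234 b0235 b0245 b0345 b1234 b1235 b1245 b1345 b2345 : Bool) (i j k l : Fin 6) : Bool :=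
  match i, j, k, l with
  | 0, 1, 2, 3 => b0123
  | 0, 1, 2, 4 => b0124
  | 0, 1, 2, 5 => b0125
  | 0, 1, 3, 4 => b0134
  | 0, 1, 3, 5 => b0135
  | 0, 1, 4, 5 => b0145
  | 0, 2, 3, 4 => b0234
  | 0, 2, 3, 5 => b0235
  | 0, 2, 4, 5 => b0245
  | 0, 3, 4, 5 => b0345
  | 1, 2, 3, 4 => b1234
  | 1, 2, 3, 5 => b1235
  | 1, 2, 4, 5 => b1245
  | 1, 3, 4, 5 => b1345
  | 2, 3, 4, 5 => b2345
  | _, _, _, _ => false

/-- At most one sign change on every five-subset. -/
def mono (b0123 b0124 b0125 b0134 b0135 b0145 b0234 b0235 b0245 b0345 b1234 b1235 b1245 b1345 b2345 : Bool) : Bool :=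
  cnd b1234 b0234 b0134 && cnd b1234 b0234 b0124 && cnd b1234 b0234 b0123 && cnd b1234 b0134 b0124 && cnd b1234 b0134 b0123 && cnd b1234 b0124 b0123 && cnd b0234 b0134 b0124 && cnd b0234 b0134 b0123 && cnd b0234 b0124 b0123 && cnd b0134 b0124 b0123 && cnd b1235 b0235 b0135 && cnd b1235 b0235 b0125 && cnd b1235 b0235 b0123 && cnd b1235 b0135 b0125 && cnd b1235 b0135 b0123 && cnd b1235 b0125 b0123 && cnd b0235 b0135 b0125 && cnd b0235 b0135 b0123 && cnd b0235 b0125 b0123 && cnd b0135 b0125 b0123 && cnd b1245 b0245 b0145 && cnd b1245 b0245 b0125 && cnd b1245 b0245 b0124 && cnd b1245 b0145 b0125 && cnd b1245 b0145 b0124 && cnd b1245 b0125 b0124 && cnd b0245 b0145 b0125 && cnd b0245 b0145 b0124 && cnd b0245 b0125 b0124 && cnd b0145 b0125 b0124 && cnd b1345 b0345 b0145 && cnd b1345 b0345 b0135 && cnd b1345 b0345 b0134 && cnd b1345 b0145 b0135 && cnd b1345 b0145 b0134 && cnd b1345 b0135 b0134 && cnd b0345 b0145 b0135 && cnd b0345 b0145 b0134 && cnd b0345 b0135 b0134 && cnd b0145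 b0135 b0134 && cnd b2345 b0345 b0245 && cnd b2345 b0345 b0235 && cnd b2345 b0345 b0234 && cnd b2345 b0245 b0235 && cnd b2345 b0245 b0234 && cnd b2345 b0235 b0234 && cnd b0345 b0245 b0235 && cnd b0345 b0245 b0234 && cnd b0345 b0235 b0234 && cnd b0245 b0235 b0234 && cnd b2345 b1345 b1245 && cnd b2345 b1345 b1235 && cnd b2345 b1345 b1234 && cnd b2345 b1245 b1235 && cnd b2345 b1245 b1234 && cnd b2345 b1235 b1234 && cnd b1345 b1245 b1235 && cnd b1345 b1245 b1234 && cnd b1345 b1235 b1234 && cnd b1245 b1235 b1234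

/-- Index `d` is below the triple `i < j < k`. -/
def bel (B : Fin 6 → Fin 6 → Fin 6 → Fin 6 → Bool) (i j k d : Fin 6) : Bool :=
  if d < i then B d i j k else if d = i then false else if d < j then !(B i d j k) else
  if d = j then false else if d < k then B i j d k else if d = k then false else !(B i j k d)

/-- Number of triples with exactly one index below. -/
def lv (B : Fin 6 → Fin 6 → Fin 6 → Fin 6 → Bool) : ℕ :=
  ((univ : Finset (Fin 6 × Fin 6 × Fin 6)).filter fun t => t.1 < t.2.1 ∧ t.2.1 < t.2.2 ∧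
    ((univ : Finset (Fin 6)).filter fun d => bel B t.1 t.2.1 t.2.2 d = true).card = 1).card

theorem finite_check : ∀ b0123 b0124 b0125 b0134 b0135 b0145 b0234 b0235 b0245 b0345 b1234 b1235 b1245 b1345 b2345 : Bool,
    mono b0123 b0124 b0125 b0134 b0135 b0145 b0234 b0235 b0245 b0345 b1234 b1235 b1245 b1345 b2345 = true → 6 ≤ lv (tab b0123 b0124 b0125 b0134 b0135 b0145 b0234 b0235 b0245 b0345 b1234 b1235 b1245 b1345 b2345) := by
  decide +kernel

end Pool.Agent.Helper61.SIG9
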